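import Pool.Agent.U99.PS.Dfn

/-!
# The set of Goedel numbers of arithmetical formulas is arithmetically definable
-/

set_option autoImplicit false

namespace Pool.Agent.U99.PS

open Function Pool.Agent.H986R3.SOA Pool.Agent.Helper180.ArithDef

/-- The set generated by the base relation `B n` and the rules `St n`. -/
inductive Gen (B : ℕ → ℕ → Prop) (St : ℕ → ℕ → ℕ → ℕ → Prop) (n : ℕ) : ℕ → Prop
  | base (e : ℕ) : B n e → Gen B St n e
  | step (a b e : ℕ) : Gen B St n a → Gen B St n b → St n a b e → Gen B St n e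

/-- The entry `i` of the sequence `s` is justified. -/
def Ok (B : ℕ → ℕ → Prop) (St : ℕ → ℕ → ℕ → ℕ → Prop) (n : ℕ) (s : ℕ → ℕ) (i : ℕ) : Prop :=
  B n (s i) ∨ ∃ j, ∃ k, j < i ∧ k < i ∧ St n (s j) (s k) (s i)

theorem gen_seq {B : ℕ → ℕ → Prop} {St : ℕ → ℕ → ℕ → ℕ → Prop} {n e : ℕ} (h : Gen B St n e) :
    ∃ (s : ℕ → ℕ) (L : ℕ), s L = e ∧ ∀ i, i ≤ L → Ok B St n s i := by
  induction h with
  | base e he => exact ⟨fun _ => e, 0, rfl, fun i _ => Or.inl he⟩
  | step a b e _ _ hst ih1 ih2 =>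
    obtain ⟨s1, L1, h1, h1'⟩ := ih1
    obtain ⟨s2, L2, h2, h2'⟩ := ih2
    let s : ℕ → ℕ := fun i => if i ≤ L1 then s1 i else if i ≤ L1 + 1 + L2 then s2 (i - L1 - 1) else e
    have e1 : ∀ i, i ≤ L1 → s i = s1 i := fun i hi => by simp only [s]; rw [if_pos hi]
    have e2 : ∀ i, i ≤ L2 → s (L1 + 1 + i) = s2 i := fun i hi => by
      simp only [s]
      rw [if_neg (by omega), if_pos (by omega)]
      congr 1
      omega
    have e3 : s (L1 + L2 + 2) = e := by
      simp only [s]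
      rw [if_neg (by omega), if_neg (by omega)]
    refine ⟨s, L1 + L2 + 2, e3, fun i hi => ?_⟩
    rcases Nat.lt_or_ge i (L1 + 1) with hi1 | hi1
    · have hi' : i ≤ L1 := by omega
      rcases h1' i hi' with h | ⟨j, k, hj, hk, h⟩
      · left; rw [e1 i hi']; exact h
      · right
        refine ⟨j, k, hj, hk, ?_⟩
        rw [e1 i hi', e1 j (by omega), e1 k (by omega)]
        exact h
    · rcases Nat.lt_or_ge i (L1 + L2 + 2) with hi2 | hi2
      · obtain ⟨i', rfl⟩ : ∃ i', i = L1 + 1 + i' := ⟨i - L1 - 1, by omega⟩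
        have hi' : i' ≤ L2 := by omega
        rcases h2' i' hi' with h | ⟨j, k, hj, hk, h⟩
        · left; rw [e2 i' hi']; exact h
        · right
          refine ⟨L1 + 1 + j, L1 + 1 + k, by omega, by omega, ?_⟩
          rw [e2 i' hi', e2 j (by omega), e2 k (by omega)]
          exact h
      · have hi3 : i = L1 + L2 + 2 := by omega
        subst hi3
        right
        refine ⟨L1, L1 + 1 + L2, by omega, by omega, ?_⟩
        rw [e3, e1 L1 le_rfl, e2 L2 le_rfl, h1, h2]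
        exact hst

theorem gen_iff {B : ℕ → ℕ → Prop} {St : ℕ → ℕ → ℕ → ℕ → Prop} {n e : ℕ} :
    Gen B St n e ↔ ∃ c L : ℕ, Nat.beta c L = e ∧ ∀ i, i ≤ L → Ok B St n (Nat.beta c) i := by
  constructor
  · intro h
    obtain ⟨s, L, h1, h2⟩ := gen_seq h
    let l := (List.range (L + 1)).map s
    have hl : l.length = L + 1 := by simp [l]
    have hb : ∀ k, k ≤ L → Nat.beta (Nat.unbeta l) k = s k := by
      intro k hkn
      have := Nat.beta_unbeta_coe l ⟨k, by omega⟩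
      simp only at this
      rw [this]
      simp [l]
    refine ⟨Nat.unbeta l, L, by rw [hb L le_rfl, h1], fun i hi => ?_⟩
    rcases h2 i hi with h | ⟨j, k, hj, hk, h⟩
    · left; rw [hb i hi]; exact h
    · right
      refine ⟨j, k, hj, hk, ?_⟩
      rw [hb i hi, hb j (by omega), hb k (by omega)]
      exact h
  · rintro ⟨c, L, rfl, h⟩
    have key : ∀ i, i ≤ L → Gen B St n (Nat.beta c i) := by
      intro i
      induction i using Nat.strong_induction_on with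
      | _ i ih =>
        intro hi
        rcases h i hi with h | ⟨j, k, hj, hk, h⟩
        · exact .base _ h
        · exact .step _ _ _ (ih j hj (by omega)) (ih k hk (by omega)) h
    exact key L le_rfl

theorem gen_DA {B : ℕ → ℕ → Prop} {St : ℕ → ℕ → ℕ → ℕ → Prop}
    (hB : DA (fun w => B (w 0) (w 1))) (hS : DA (fun w => St (w 0) (w 1) (w 2) (w 3))) :
    DA (fun w => Gen B St (w 0) (w 1)) := by
  have h := dcA
  refine h.iff (fun w => gen_iff.symm) ?_
  refine h.ex' (S := fun c w => ∃ L : ℕ, Nat.beta c L = w 1 ∧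
    ∀ i, i ≤ L → Ok B St (w 0) (Nat.beta c) i) ?_
  refine h.ex' (S := fun L w => Nat.beta (w 0) L = w 2 ∧
    ∀ i, i ≤ L → Ok B St (w 1) (Nat.beta (w 0)) i) ?_
  refine h.and (h.eq (h.tbeta (h.tvar 1) (h.tvar 0)) (h.tvar 3)) ?_
  refine h.all' (S := fun i w => i ≤ w 0 → Ok B St (w 2) (Nat.beta (w 1)) i) ?_
  -- variables: 0 = i, 1 = L, 2 = c, 3 = n, 4 = e
  refine h.imp (h.le (h.tvar 0) (h.tvar 1)) ?_
  refine h.or (h.app2 (R := B) hB (h.tvar 3) (h.tbeta (h.tvar 2) (h.tvar 0))) ?_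
  refine h.ex' (S := fun j w => ∃ k, j < w 0 ∧ k < w 0 ∧
    St (w 3) (Nat.beta (w 2) j) (Nat.beta (w 2) k) (Nat.beta (w 2) (w 0))) ?_
  refine h.ex' (S := fun k w => w 0 < w 1 ∧ k < w 1 ∧
    St (w 4) (Nat.beta (w 3) (w 0)) (Nat.beta (w 3) k) (Nat.beta (w 3) (w 1))) ?_
  -- variables: 0 = k, 1 = j, 2 = i, 3 = L, 4 = c, 5 = n
  refine h.and (h.lt (h.tvar 1) (h.tvar 2)) (h.and (h.lt (h.tvar 0) (h.tvar 2)) ?_)
  have h4 : DA (fun w => St (w 0) (w 1) (w 2) (w 3)) := hS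
  -- substitute four terms
  refine h.iff (fun w => ?_) (h.ex' (S := fun x w => ∃ y z : ℕ, x = Nat.beta (w 4) (w 1) ∧
    y = Nat.beta (w 4) (w 0) ∧ z = Nat.beta (w 4) (w 2) ∧ St (w 5) x y z)
    (h.ex' (S := fun y w => ∃ z : ℕ, w 0 = Nat.beta (w 5) (w 2) ∧
      y = Nat.beta (w 5) (w 1) ∧ z = Nat.beta (w 5) (w 3) ∧ St (w 6) (w 0) y z)
      (h.ex' (S := fun z w => w 1 = Nat.beta (w 6) (w 3) ∧
        w 0 = Nat.beta (w 6) (w 2) ∧ z = Nat.beta (w 6) (w 4) ∧ St (w 7) (w 1) (w 0) z)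
        (h.and (h.eq (h.tvar 2) (h.tbeta (h.tvar 7) (h.tvar 4)))
          (h.and (h.eq (h.tvar 1) (h.tbeta (h.tvar 7) (h.tvar 3)))
            (h.and (h.eq (h.tvar 0) (h.tbeta (h.tvar 7) (h.tvar 5)))
              (h.ren (fun n => match n with | 0 => 8 | 1 => 2 | 2 => 1 | _ => 0) h4)))))))
  constructor
  · rintro ⟨x, y, z, rfl, rfl, rfl, h⟩
    exact h
  · intro h
    exact ⟨_, _, _, rfl, rfl, rfl, h⟩

theorem tpr {F G : (ℕ → ℕ) → ℕ} (hF : DT DA F) (hG : DT DA G) :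
    DT DA (fun w => pr (F w) (G w)) := by
  have h := dcA
  exact h.tadd (h.tmul (h.tadd hF hG) (h.tadd hF hG)) hF

theorem tconst : ∀ c : ℕ, DT DA (fun _ => c)
  | 0 => dcA.tzero
  | n + 1 => dcA.tadd (tconst n) dcA.tone

end Pool.Agent.U99.PS
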