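import Pool.Agent.H986R3.SOAFinal
import Pool.Agent.Helper180.ArithDef

/-!
# Relations on the natural numbers definable by arithmetical formulas of `L_2`
-/

set_option autoImplicit false

namespace Pool.Agent.U99.PS

open Function Pool.Agent.H986R3.SOA Pool.Agent.Helper180.ArithDef

/-- Shift of all variables of a term. -/
def shT (k : ℕ) : Tm → Tm
  | .var i => .var (i + k)
  | .zero => .zero
  | .one => .one
  | .add s t => .add (shT k s) (shT k t)
  | .mul s t => .mul (shT k s) (shT k t)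

/-- Shift of all number variables, free or bound, of a formula. -/
def shF (k : ℕ) : Fm → Fm
  | .eq s t => .eq (shT k s) (shT k t)
  | .lt s t => .lt (shT k s) (shT k t)
  | .mem t i => .mem (shT k t) i
  | .neg φ => .neg (shF k φ)
  | .and φ ψ => .and (shF k φ) (shF k ψ)
  | .all i φ => .all (i + k) (shF k φ)
  | .allS i φ => .allS i (shF k φ)

theorem val_shT (M : Model) (k : ℕ) (v : ℕ → M.Num) : ∀ t : Tm,
    (shT k t).val M v = t.val M (fun i => v (i + k))
  | .var _ => rfl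
  | .zero => rfl
  | .one => rfl
  | .add s t => by simp only [shT, Tm.val, val_shT M k v s, val_shT M k v t]
  | .mul s t => by simp only [shT, Tm.val, val_shT M k v s, val_shT M k v t]

theorem Sat_shF (M : Model) (k : ℕ) : ∀ (φ : Fm) (v : ℕ → M.Num) (V : ℕ → Set M.Num),
    Sat M v V (shF k φ) ↔ Sat M (fun i => v (i + k)) V φ
  | .eq _ _, v, V => by simp only [shF, Sat, val_shT]
  | .lt _ _, v, V => by simp only [shF, Sat, val_shT]
  | .mem _ _, v, V => by simp only [shF, Sat, val_shT]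
  | .neg φ, v, V => by simp only [shF, Sat, Sat_shF M k φ]
  | .and φ ψ, v, V => by simp only [shF, Sat, Sat_shF M k φ, Sat_shF M k ψ]
  | .all i φ, v, V => by
      simp only [shF, Sat, Sat_shF M k φ]
      refine forall_congr' fun a => ?_
      have : (fun j => update v (i + k) a (j + k)) = update (fun j => v (j + k)) i a := by
        funext j
        by_cases h : j = i
        · subst h; simp
        · rw [update_of_ne h, update_of_ne (by omega)]
      rw [this]
  | .allS i φ, v, V => by simp only [shF, Sat, Sat_shF M k φ]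

theorem shF_arith (k : ℕ) : ∀ φ : Fm, φ.Arithmetical → (shF k φ).Arithmetical
  | .eq _ _, _ => trivial
  | .lt _ _, _ => trivial
  | .mem _ _, _ => trivial
  | .neg φ, h => shF_arith k φ h
  | .and φ ψ, h => ⟨shF_arith k φ h.1, shF_arith k ψ h.2⟩
  | .all _ φ, h => shF_arith k φ h
  | .allS _ _, h => h.elim

theorem shF_fvS (k : ℕ) : ∀ φ : Fm, (shF k φ).fvS = φ.fvS
  | .eq _ _ => rfl
  | .lt _ _ => rfl
  | .mem _ _ => rfl
  | .neg φ => shF_fvS k φ
  | .and φ ψ => by simp only [shF, Fm.fvS, shF_fvS k φ, shF_fvS k ψ]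
  | .all _ φ => shF_fvS k φ
  | .allS _ φ => by simp only [shF, Fm.fvS, shF_fvS k φ]

theorem Tm.fv_lt : ∀ t : Tm, ∀ i ∈ t.fv, i < t.bd
  | .var j, i, h => by
      simp only [Tm.fv, Set.mem_singleton_iff] at h
      simp only [Tm.bd]; omega
  | .zero, _, h => h.elim
  | .one, _, h => h.elim
  | .add s t, i, h => by
      simp only [Tm.bd]
      rcases h with h | h
      · exact lt_of_lt_of_le (Tm.fv_lt s i h) (le_max_left _ _)
      · exact lt_of_lt_of_le (Tm.fv_lt t i h) (le_max_right _ _)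
  | .mul s t, i, h => by
      simp only [Tm.bd]
      rcases h with h | h
      · exact lt_of_lt_of_le (Tm.fv_lt s i h) (le_max_left _ _)
      · exact lt_of_lt_of_le (Tm.fv_lt t i h) (le_max_right _ _)

theorem Fm.fv_lt : ∀ φ : Fm, ∀ i ∈ φ.fvN, i < φ.bd
  | .eq s t, i, h => by
      simp only [Fm.bd]
      rcases h with h | h
      · exact lt_of_lt_of_le (Tm.fv_lt s i h) (le_max_left _ _)
      · exact lt_of_lt_of_le (Tm.fv_lt t i h) (le_max_right _ _)
  | .lt s t, i, h => by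
      simp only [Fm.bd]
      rcases h with h | h
      · exact lt_of_lt_of_le (Tm.fv_lt s i h) (le_max_left _ _)
      · exact lt_of_lt_of_le (Tm.fv_lt t i h) (le_max_right _ _)
  | .mem t j, i, h => Tm.fv_lt t i h
  | .neg φ, i, h => Fm.fv_lt φ i h
  | .and φ ψ, i, h => by
      simp only [Fm.bd]
      rcases h with h | h
      · exact lt_of_lt_of_le (Fm.fv_lt φ i h) (le_max_left _ _)
      · exact lt_of_lt_of_le (Fm.fv_lt ψ i h) (le_max_right _ _)
  | .all j φ, i, h => by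
      simp only [Fm.bd]
      exact lt_of_lt_of_le (Fm.fv_lt φ i h.1) (le_max_right _ _)
  | .allS j φ, i, h => Fm.fv_lt φ i h

/-- Satisfaction in the standard model, with the number domain written as `ℕ`. -/
def SN (v : ℕ → ℕ) (V : ℕ → Set ℕ) (φ : Fm) : Prop := Sat std v V φ

/-- Value of a term in the standard model. -/
def vN (v : ℕ → ℕ) (t : Tm) : ℕ := t.val std v

section SN
variable (v : ℕ → ℕ) (V : ℕ → Set ℕ)

@[simp] theorem vN_var (i : ℕ) : vN v (.var i) = v i := rfl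
@[simp] theorem vN_zero : vN v .zero = 0 := rfl
@[simp] theorem vN_one : vN v .one = 1 := rfl
@[simp] theorem vN_add (s t : Tm) : vN v (.add s t) = vN v s + vN v t := rfl
@[simp] theorem vN_mul (s t : Tm) : vN v (.mul s t) = vN v s * vN v t := rfl

@[simp] theorem SN_eq (s t : Tm) : SN v V (.eq s t) ↔ vN v s = vN v t := Iff.rfl
@[simp] theorem SN_lt (s t : Tm) : SN v V (.lt s t) ↔ vN v s < vN v t := Iff.rfl
@[simp] theorem SN_mem (t : Tm) (i : ℕ) : SN v V (.mem t i) ↔ vN v t ∈ V i := Iff.rfl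
@[simp] theorem SN_neg (φ : Fm) : SN v V (.neg φ) ↔ ¬ SN v V φ := Iff.rfl
@[simp] theorem SN_and (φ ψ : Fm) : SN v V (.and φ ψ) ↔ SN v V φ ∧ SN v V ψ := Iff.rfl
@[simp] theorem SN_all (i : ℕ) (φ : Fm) : SN v V (.all i φ) ↔ ∀ a : ℕ, SN (update v i a) V φ :=
  Iff.rfl
@[simp] theorem SN_allS (i : ℕ) (φ : Fm) :
    SN v V (.allS i φ) ↔ ∀ A : Set ℕ, SN v (update V i A) φ :=
  ⟨fun h A => h A trivial, fun h A _ => h A⟩
@[simp] theorem SN_imp (φ ψ : Fm) : SN v V (φ.imp ψ) ↔ (SN v V φ → SN v V ψ) :=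
  Sat_imp std v V φ ψ
@[simp] theorem SN_iff (φ ψ : Fm) : SN v V (φ.iff ψ) ↔ (SN v V φ ↔ SN v V ψ) :=
  Sat_iff std v V φ ψ
@[simp] theorem SN_or (φ ψ : Fm) : SN v V (φ.or ψ) ↔ (SN v V φ ∨ SN v V ψ) :=
  Sat_or std v V φ ψ
@[simp] theorem SN_ex (i : ℕ) (φ : Fm) : SN v V (φ.ex i) ↔ ∃ a : ℕ, SN (update v i a) V φ :=
  Sat_ex std v V i φ
@[simp] theorem SN_exS (i : ℕ) (φ : Fm) :
    SN v V (φ.exS i) ↔ ∃ A : Set ℕ, SN v (update V i A) φ := by
  refine (Sat_exS std v V i φ).trans ⟨?_, ?_⟩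
  · rintro ⟨A, _, h⟩
    exact ⟨A, h⟩
  · rintro ⟨A, h⟩
    exact ⟨A, trivial, h⟩

end SN

theorem SN_congr (φ : Fm) (v v' : ℕ → ℕ) (V V' : ℕ → Set ℕ)
    (h : ∀ i ∈ φ.fvN, v i = v' i) (h' : ∀ i ∈ φ.fvS, V i = V' i) : SN v V φ ↔ SN v' V' φ :=
  Sat_congr std φ v v' V V' h h'

theorem SN_shF (k : ℕ) (φ : Fm) (v : ℕ → ℕ) (V : ℕ → Set ℕ) :
    SN v V (shF k φ) ↔ SN (fun i => v (i + k)) V φ := Sat_shF std k φ v V

/-- The class of relations definable in the standard model by arithmetical formulas without free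
set variables. -/
def DA (R : (ℕ → ℕ) → Prop) : Prop :=
  ∃ φ : Fm, φ.Arithmetical ∧ φ.fvS = ∅ ∧ ∀ (v : ℕ → ℕ) (V : ℕ → Set ℕ), SN v V φ ↔ R v

/-- Auxiliary: bind the variables `k, ..., k + n - 1` to the values of `ρ 0, ..., ρ (n-1)`. -/
def bnd (k : ℕ) (ρ : ℕ → ℕ) (ψ : Fm) : ℕ → Fm
  | 0 => ψ
  | n + 1 => .ex (k + n) (.and (.eq (.var (k + n)) (.var (ρ n))) (bnd k ρ ψ n))

theorem bnd_arith (k : ℕ) (ρ : ℕ → ℕ) {ψ : Fm} (h : ψ.Arithmetical) : ∀ n, (bnd k ρ ψ n).Arithmetical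
  | 0 => h
  | n + 1 => ⟨trivial, bnd_arith k ρ h n⟩

theorem bnd_fvS (k : ℕ) (ρ : ℕ → ℕ) {ψ : Fm} (h : ψ.fvS = ∅) : ∀ n, (bnd k ρ ψ n).fvS = ∅
  | 0 => h
  | n + 1 => by simp [bnd, Fm.ex, Fm.fvS, bnd_fvS k ρ h n]

theorem SN_bnd (k : ℕ) (ρ : ℕ → ℕ) (ψ : Fm) : ∀ (n : ℕ), (∀ i < n, ρ i < k) →
    ∀ (v : ℕ → ℕ) (V : ℕ → Set ℕ), SN v V (bnd k ρ ψ n) ↔
      SN (fun i => if k ≤ i ∧ i < k + n then v (ρ (i - k)) else v i) V ψ
  | 0, _, v, V => by
      simp only [bnd, Nat.add_zero]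
      have : (fun i => if k ≤ i ∧ i < k then v (ρ (i - k)) else v i) = v := by
        funext i; rw [if_neg (by omega)]
      rw [this]
  | n + 1, h, v, V => by
      have hn : ρ n < k := h n (by omega)
      have hv : ∀ a : ℕ, update v (k + n) a (ρ n) = v (ρ n) := fun a =>
        update_of_ne (by omega) _ _
      have key : SN v V (bnd k ρ ψ (n + 1)) ↔
          SN (update v (k + n) (v (ρ n))) V (bnd k ρ ψ n) := by
        simp only [bnd, SN_ex, SN_and, SN_eq, vN_var, update_self, hv]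
        constructor
        · rintro ⟨a, h1, h2⟩
          rw [h1] at h2
          exact h2
        · intro h2
          exact ⟨v (ρ n), rfl, h2⟩
      refine key.trans ?_
      rw [SN_bnd k ρ ψ n (fun i hi => h i (by omega))]
      have : (fun i => if k ≤ i ∧ i < k + n then update v (k + n) (v (ρ n)) (ρ (i - k)) else
          update v (k + n) (v (ρ n)) i) =
          (fun i => if k ≤ i ∧ i < k + (n + 1) then v (ρ (i - k)) else v i) := by
        funext i
        by_cases h1 : k ≤ i ∧ i < k + n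
        · rw [if_pos h1, if_pos (by omega)]
          have : ρ (i - k) < k := h _ (by omega)
          rw [update_of_ne (by omega)]
        · rw [if_neg h1]
          by_cases h2 : i = k + n
          · subst h2
            rw [update_self, if_pos (by omega)]
            congr 2
            omega
          · rw [update_of_ne h2, if_neg (by omega)]
      rw [this]

theorem exists_bound (ρ : ℕ → ℕ) (n : ℕ) : ∃ k, ∀ i < n, ρ i < k := by
  induction n with
  | zero => exact ⟨0, fun i hi => by omega⟩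
  | succ n ih =>
    obtain ⟨k, hk⟩ := ih
    refine ⟨max k (ρ n + 1), fun i hi => ?_⟩
    rcases Nat.lt_succ_iff_lt_or_eq.1 hi with h | h
    · exact lt_of_lt_of_le (hk i h) (le_max_left _ _)
    · subst h; exact lt_of_lt_of_le (Nat.lt_succ_self _) (le_max_right _ _)

theorem DA.ren {R : (ℕ → ℕ) → Prop} (ρ : ℕ → ℕ) (h : DA R) :
    DA (fun w => R (fun i => w (ρ i))) := by
  obtain ⟨φ, h1, h2, h3⟩ := h
  obtain ⟨k, hk⟩ := exists_bound ρ φ.bd
  refine ⟨bnd k ρ (shF k φ) φ.bd, bnd_arith k ρ (shF_arith k φ h1) _,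
    bnd_fvS k ρ ((shF_fvS k φ).trans h2) _, fun v V => ?_⟩
  rw [SN_bnd k ρ _ _ hk, SN_shF]
  refine Iff.trans ?_ (h3 (fun i => v (ρ i)) V)
  refine SN_congr φ _ _ _ _ (fun i hi => ?_) (fun _ _ => rfl)
  have hlt := Fm.fv_lt φ i hi
  have h1 : k ≤ i + k ∧ i + k < k + φ.bd := by omega
  have h2 : i + k - k = i := by omega
  simp only [h1, and_self, if_true, h2]

theorem dcA : DC DA where
  add := ⟨.eq (.add (.var 0) (.var 1)) (.var 2), trivial, by simp [Fm.fvS], fun _ _ => Iff.rfl⟩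
  mul := ⟨.eq (.mul (.var 0) (.var 1)) (.var 2), trivial, by simp [Fm.fvS], fun _ _ => Iff.rfl⟩
  bot := ⟨.eq .zero .one, trivial, by simp [Fm.fvS], fun _ _ => by simp⟩
  imp := by
    rintro R S ⟨φ, h1, h2, h3⟩ ⟨ψ, h4, h5, h6⟩
    refine ⟨.imp φ ψ, ⟨h1, h4⟩, by simp [Fm.imp, Fm.fvS, h2, h5], fun v V => ?_⟩
    rw [SN_imp, h3, h6]
  all := by
    intro R h
    have hR := h
    obtain ⟨φ, h1, h2, h3⟩ := h
    obtain ⟨ψ, h4, h5, h6⟩ := DA.ren (fun i => Nat.casesOn i φ.bd (fun j => j)) hR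
    refine ⟨.all φ.bd ψ, h4, h5, fun v V => ?_⟩
    simp only [SN_all]
    refine forall_congr' fun a => ?_
    refine (h6 (update v φ.bd a) V).trans (Iff.trans ?_ (h3 (cns a v) V))
    refine (h3 (fun i => update v φ.bd a (Nat.casesOn i φ.bd fun j => j)) V).symm.trans ?_
    refine SN_congr φ _ _ _ _ (fun i hi => ?_) (fun _ _ => rfl)
    have := Fm.fv_lt φ i hi
    cases i with
    | zero => exact update_self _ _ _
    | succ j =>
      show update v φ.bd a j = v j
      exact update_of_ne (by omega) _ _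
  ren := fun ρ h => DA.ren ρ h

/-- Universal closure with respect to the number variables `i, i+1, ..., i + n - 1`. -/
def clA (i : ℕ) (φ : Fm) : ℕ → Fm
  | 0 => φ
  | n + 1 => .all (i + n) (clA i φ n)

theorem clA_arith (i : ℕ) {φ : Fm} (h : φ.Arithmetical) : ∀ n, (clA i φ n).Arithmetical
  | 0 => h
  | n + 1 => clA_arith i h n

theorem clA_fvS (i : ℕ) (φ : Fm) : ∀ n, (clA i φ n).fvS = φ.fvS
  | 0 => rfl
  | n + 1 => clA_fvS i φ n

theorem clA_fvN (i : ℕ) (φ : Fm) : ∀ n, (clA i φ n).fvN = φ.fvN \ {j | i ≤ j ∧ j < i + n}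
  | 0 => by
      simp only [clA, Nat.add_zero]
      ext x
      simp only [Set.mem_sdiff, Set.mem_ofPred_eq]
      constructor
      · exact fun h => ⟨h, by omega⟩
      · exact fun h => h.1
  | n + 1 => by
      simp only [clA, Fm.fvN, clA_fvN i φ n]
      ext x
      simp only [Set.mem_sdiff, Set.mem_ofPred_eq, Set.mem_singleton_iff]
      constructor
      · rintro ⟨⟨h1, h2⟩, h3⟩
        exact ⟨h1, by omega⟩
      · rintro ⟨h1, h2⟩
        exact ⟨⟨h1, by omega⟩, by omega⟩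

theorem SN_clA (i : ℕ) (φ : Fm) (R : (ℕ → ℕ) → Prop)
    (hR : ∀ (v : ℕ → ℕ) (V : ℕ → Set ℕ), SN v V φ ↔ R v)
    (hi : ∀ v v' : ℕ → ℕ, (∀ j < i, v j = v' j) → (R v ↔ R v')) : ∀ (n : ℕ)
    (v : ℕ → ℕ) (V : ℕ → Set ℕ), SN v V (clA i φ n) ↔ R v
  | 0, v, V => hR v V
  | n + 1, v, V => by
      simp only [clA, SN_all, SN_clA i φ R hR hi n]
      constructor
      · intro h
        refine (hi _ _ fun j hj => ?_).1 (h 0)
        exact update_of_ne (by omega) _ _
      · intro h a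
        refine (hi _ _ fun j hj => ?_).1 h
        exact (update_of_ne (by omega) _ _).symm

/-- A definable property of one number is defined by an arithmetical formula in which only the
number variable `0` is free. -/
theorem DA.formula {R : ℕ → Prop} (h : DA (fun w => R (w 0))) :
    ∃ σ : Fm, σ.Arithmetical ∧ σ.FreeIn {0} ∧
      ∀ (v : ℕ → ℕ) (V : ℕ → Set ℕ), SN v V σ ↔ R (v 0) := by
  obtain ⟨φ, h1, h2, h3⟩ := h
  refine ⟨clA 1 φ φ.bd, clA_arith 1 h1 _, ⟨?_, (clA_fvS 1 φ _).trans h2⟩, ?_⟩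
  · rw [clA_fvN]
    rintro x ⟨hx, hx'⟩
    have := Fm.fv_lt φ x hx
    simp only [Set.mem_ofPred_eq] at hx'
    simp only [Set.mem_singleton_iff]
    omega
  · exact SN_clA 1 φ (fun w => R (w 0)) h3 (fun v v' hv => by rw [hv 0 (by omega)]) _

end Pool.Agent.U99.PS
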