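import Pool.Agent.H986R3.SOABasic

/-!
# `Sigma^1_1`-`AC_0` and `Pi^1_1` definitions of theories

The language, structures, provability, `ACA_0`, Goedel numbers and arithmetizations are defined in
`Pool/Agent/H986R3/SOADefs.lean`, the pairing term `prT` in `Pool/Agent/H986R3/SOABasic.lean`.
-/

set_option autoImplicit false

namespace Pool.Agent.U99.PS

open Pool.Agent.H986R3.SOA

/-- The axiom of choice for the formula `η(n, X)`, with `n` the number variable `i` and `X` the set
variable `j`: `∀ n ∃ X η(n, X) → ∃ Y ∀ n ∃ X (∀ m (m ∈ X ↔ (n, m) ∈ Y) ∧ η(n, X))`, where `Y` is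
the set variable `k` and `m` the number variable `m`. -/
def choiceF (η : Fm) (i j k m : ℕ) : Fm :=
  .imp (.all i (.exS j η))
    (.exS k (.all i (.exS j (.and
      (.all m (.iff (.mem (.var m) j) (.mem (prT (.var i) (.var m)) k))) η))))

/-- The axioms of `Sigma^1_1`-`AC_0`: those of `ACA_0` and the `Sigma^1_1` axiom of choice, for
`Sigma^1_1` formulas and for arithmetical formulas `η` in which `Y` is not free. -/
inductive SigmaAC0 : Fm → Prop
  | aca (φ : Fm) : ACA0 φ → SigmaAC0 φ
  | choice (η : Fm) (i j k m : ℕ) : (η.IsSigma11 ∨ η.Arithmetical) → k ∉ η.fvS → k ≠ j → m ≠ i →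
      SigmaAC0 (choiceF η i j k m)

/-- The `Pi^1_1` formula `τ(a)` defines (the set of Goedel numbers of the members of) `T` in the
standard model. -/
def Pi11Defines (τ : Fm) (T : Set Fm) : Prop :=
  τ.IsPi11 ∧ τ.FreeIn {0} ∧ ∀ n : ℕ, SatN n 0 0 τ ↔ ∃ φ ∈ T, φ.code = n

end Pool.Agent.U99.PS
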