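import Pool.Agent.U99.PS.Syn
import Pool.Agent.U99.PS.Stm

/-!
# A `Pi^1_1` definition for which a true theory proves its own `Pi^1_1`-soundness
-/

set_option autoImplicit false

namespace Pool.Agent.U99.PS

open Function Pool.Agent.H986R3.SOA Pool.Agent.Helper180.ArithDef

/-- The false sentence `0 = 1`. -/
def falsum : Fm := .eq .zero .one

/-- `Pi^1_1`-soundness of pure logic: the `Pi^1_1` sentences that have a proof without
non-logical axioms are true. -/
def rho0 (𝒜 : Arithmetization) : Fm := 𝒜.reflection falsum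

/-- Every proof that uses a non-logical axiom has a largest non-logical axiom. -/
def rho1 (𝒜 : Arithmetization) : Fm :=
  .all 1 (.or (.all 0 (.neg 𝒜.axIn))
    (.ex 3 (.and (.ex 0 (.and (.eq (.var 0) (.var 3)) 𝒜.axIn))
      (.all 0 (.imp 𝒜.axIn (.or (.lt (.var 0) (.var 3)) (.eq (.var 0) (.var 3))))))))

/-- `σ(a) ∧ a ≤ b`, where `a` is the number variable `0` and `b` the number variable `3`. -/
def restr (σ : Fm) : Fm := .and σ (.or (.lt (.var 0) (.var 3)) (.eq (.var 0) (.var 3)))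

/-- The body of the formula `τ`. -/
def tauBody (𝒜 : Arithmetization) (σ θ : Fm) : Fm :=
  .and σ (.all 3 (.imp (.eq (.var 3) (.var 0))
    (.all 2 (.imp (.and 𝒜.isPi (𝒜.Pr (restr σ))) θ))))

/-- `τ(a)`: `a` is an axiom of the theory defined by `σ`, and the `Pi^1_1` sentences provable from
the axioms `≤ a` are true. Here `tr = ∀ X_i θ`. -/
def tau (𝒜 : Arithmetization) (σ : Fm) (i : ℕ) (θ : Fm) : Fm := .allS i (tauBody 𝒜 σ θ)

section sat

variable (M : Model) (𝒜 : Arithmetization)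

theorem Sat_prf (v : ℕ → M.Num) (V : ℕ → Set M.Num) :
    Sat M v V 𝒜.prf ↔ Sat M (asg M.zero (v 1) (v 2)) (fun _ => ∅) 𝒜.prf := by
  refine Sat_congr M _ _ _ _ _ (fun i hi => ?_) (fun i hi => ?_)
  · rcases 𝒜.prf_free.1 hi with rfl | h
    · rfl
    · rw [Set.mem_singleton_iff] at h; subst h; rfl
  · rw [𝒜.prf_free.2] at hi; exact hi.elim

theorem Sat_axIn (v : ℕ → M.Num) (V : ℕ → Set M.Num) :
    Sat M v V 𝒜.axIn ↔ Sat M (asg (v 0) (v 1) M.zero) (fun _ => ∅) 𝒜.axIn := by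
  refine Sat_congr M _ _ _ _ _ (fun i hi => ?_) (fun i hi => ?_)
  · rcases 𝒜.axIn_free.1 hi with rfl | h
    · rfl
    · rw [Set.mem_singleton_iff] at h; subst h; rfl
  · rw [𝒜.axIn_free.2] at hi; exact hi.elim

theorem Sat_isPi (v : ℕ → M.Num) (V : ℕ → Set M.Num) :
    Sat M v V 𝒜.isPi ↔ Sat M (asg M.zero M.zero (v 2)) (fun _ => ∅) 𝒜.isPi := by
  refine Sat_congr M _ _ _ _ _ (fun i hi => ?_) (fun i hi => ?_)
  · have h := 𝒜.isPi_free.1 hi
    rw [Set.mem_singleton_iff] at h; subst h; rfl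
  · rw [𝒜.isPi_free.2] at hi; exact hi.elim

theorem Sat_tr (v : ℕ → M.Num) (V : ℕ → Set M.Num) :
    Sat M v V 𝒜.tr ↔ Sat M (asg M.zero M.zero (v 2)) (fun _ => ∅) 𝒜.tr := by
  refine Sat_congr M _ _ _ _ _ (fun i hi => ?_) (fun i hi => ?_)
  · have h := 𝒜.tr_free.1 hi
    rw [Set.mem_singleton_iff] at h; subst h; rfl
  · rw [𝒜.tr_free.2] at hi; exact hi.elim

theorem Sat_sig {σ : Fm} (hσ : σ.FreeIn {0}) (v : ℕ → M.Num) (V : ℕ → Set M.Num) :
    Sat M v V σ ↔ Sat M (asg (v 0) M.zero M.zero) (fun _ => ∅) σ := by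
  refine Sat_congr M _ _ _ _ _ (fun i hi => ?_) (fun i hi => ?_)
  · have h := hσ.1 hi
    rw [Set.mem_singleton_iff] at h; subst h; rfl
  · rw [hσ.2] at hi; exact hi.elim

/-- `prf(p, x)` in `M`. -/
def mprf (p x : M.Num) : Prop := Sat M (asg M.zero p x) (fun _ => ∅) 𝒜.prf
/-- `axIn(a, p)` in `M`. -/
def maxIn (a p : M.Num) : Prop := Sat M (asg a p M.zero) (fun _ => ∅) 𝒜.axIn
/-- `isPi(x)` in `M`. -/
def misPi (x : M.Num) : Prop := Sat M (asg M.zero M.zero x) (fun _ => ∅) 𝒜.isPi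
/-- `tr(x)` in `M`. -/
def mtr (x : M.Num) : Prop := Sat M (asg M.zero M.zero x) (fun _ => ∅) 𝒜.tr
/-- `σ(a)` in `M`. -/
def msig (σ : Fm) (a : M.Num) : Prop := Sat M (asg a M.zero M.zero) (fun _ => ∅) σ

theorem holds_reflection {τ : Fm} (hτ : τ.FreeIn {0}) :
    M.Holds (𝒜.reflection τ) ↔ ∀ x, misPi M 𝒜 x → (∃ p, mprf M 𝒜 p x ∧
      ∀ a, maxIn M 𝒜 a p → msig M τ a) → mtr M 𝒜 x := by
  have key : ∀ (v : ℕ → M.Num) (V : ℕ → Set M.Num), Sat M v V (𝒜.reflection τ) ↔
      ∀ x, misPi M 𝒜 x → (∃ p, mprf M 𝒜 p x ∧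
      ∀ a, maxIn M 𝒜 a p → msig M τ a) → mtr M 𝒜 x := by
    intro v V
    simp only [Arithmetization.reflection, Arithmetization.Pr, Sat, Sat_imp, Sat_ex]
    refine forall_congr' fun x => ?_
    rw [Sat_isPi, Sat_tr]
    simp only [update_self]
    rw [and_imp]
    refine imp_congr Iff.rfl (imp_congr (exists_congr fun p => and_congr ?_
      (forall_congr' fun a => imp_congr ?_ ?_)) Iff.rfl)
    · rw [Sat_prf]
      simp only [update_self]
      rw [update_of_ne (by omega), update_self]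
      exact Iff.rfl
    · rw [Sat_axIn]
      simp only [update_self]
      rw [update_of_ne (by omega), update_self]
      exact Iff.rfl
    · rw [Sat_sig M hτ]
      simp only [update_self]
      exact Iff.rfl
  constructor
  · intro h
    obtain ⟨V, hV⟩ := M.exists_setAsg
    exact (key (fun _ => M.zero) V).1 (h _ _ hV)
  · intro h v V _
    exact (key v V).2 h

theorem holds_rho1 : M.Holds (rho1 𝒜) ↔ ∀ p, (∀ a, ¬ maxIn M 𝒜 a p) ∨
    ∃ b, maxIn M 𝒜 b p ∧ ∀ a, maxIn M 𝒜 a p → (M.lt a b ∨ a = b) := by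
  have key : ∀ (v : ℕ → M.Num) (V : ℕ → Set M.Num), Sat M v V (rho1 𝒜) ↔
      ∀ p, (∀ a, ¬ maxIn M 𝒜 a p) ∨
        ∃ b, maxIn M 𝒜 b p ∧ ∀ a, maxIn M 𝒜 a p → (M.lt a b ∨ a = b) := by
    intro v V
    simp only [rho1, Sat, Sat_imp, Sat_ex, Sat_or, Tm.val]
    refine forall_congr' fun p => or_congr (forall_congr' fun a => not_congr ?_)
      (exists_congr fun b => and_congr ?_ (forall_congr' fun a => imp_congr ?_ ?_))
    · rw [Sat_axIn]
      simp only [update_self]
      rw [update_of_ne (by omega), update_self]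
      exact Iff.rfl
    · constructor
      · rintro ⟨a, h1, h2⟩
        rw [update_self, update_of_ne (by omega), update_self] at h1
        rw [Sat_axIn] at h2
        simp only [update_self] at h2
        rw [update_of_ne (by omega), update_of_ne (by omega), update_self, h1] at h2
        exact h2
      · intro h
        refine ⟨b, ?_, ?_⟩
        · rw [update_self, update_of_ne (by omega), update_self]
        · rw [Sat_axIn]
          simp only [update_self]
          rw [update_of_ne (by omega), update_of_ne (by omega), update_self]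
          exact h
    · rw [Sat_axIn]
      simp only [update_self]
      rw [update_of_ne (by omega), update_of_ne (by omega), update_self]
      exact Iff.rfl
    · rw [update_self, update_of_ne (by omega), update_self]
  constructor
  · intro h
    obtain ⟨V, hV⟩ := M.exists_setAsg
    exact (key (fun _ => M.zero) V).1 (h _ _ hV)
  · intro h v V _
    exact (key v V).2 h

theorem msig_falsum (a : M.Num) (h : msig M falsum a) : M.zero = M.one := h

theorem Sat_tau {σ θ : Fm} {i : ℕ} (hσ : σ.FreeIn {0}) (htr : 𝒜.tr = .allS i θ)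
    (v : ℕ → M.Num) (V : ℕ → Set M.Num) :
    Sat M v V (tau 𝒜 σ i θ) ↔ msig M σ (v 0) ∧ ∀ x, misPi M 𝒜 x → (∃ p, mprf M 𝒜 p x ∧
      ∀ a, maxIn M 𝒜 a p → msig M σ a ∧ (M.lt a (v 0) ∨ a = v 0)) → mtr M 𝒜 x := by
  have key : ∀ A : Set M.Num, Sat M v (update V i A) (tauBody 𝒜 σ θ) ↔
      msig M σ (v 0) ∧ ∀ x, misPi M 𝒜 x → (∃ p, mprf M 𝒜 p x ∧
        ∀ a, maxIn M 𝒜 a p → msig M σ a ∧ (M.lt a (v 0) ∨ a = v 0)) →
          Sat M (update (update v 3 (v 0)) 2 x) (update V i A) θ := by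
    intro A
    simp only [tauBody, restr, Arithmetization.Pr, Sat, Sat_imp, Sat_ex, Sat_or, Tm.val]
    rw [Sat_sig M hσ]
    refine and_congr Iff.rfl ?_
    constructor
    · intro h x h1 h2
      refine h (v 0) (by rw [update_self, update_of_ne (by omega)]) x ⟨?_, ?_⟩
      · rw [Sat_isPi, update_self]; exact h1
      · obtain ⟨p, hp, hp'⟩ := h2
        refine ⟨p, ?_, fun a ha => ?_⟩
        · rw [Sat_prf, update_self, update_of_ne (by omega), update_self]; exact hp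
        · rw [Sat_axIn, update_self, update_of_ne (by omega), update_self] at ha
          obtain ⟨h3, h4⟩ := hp' a ha
          refine ⟨?_, ?_⟩
          · rw [Sat_sig M hσ, update_self]; exact h3
          · rw [update_self, update_of_ne (by omega), update_of_ne (by omega),
              update_of_ne (by omega), update_self]
            exact h4
    · intro h b hb x h12
      rw [update_self, update_of_ne (by omega)] at hb
      subst hb
      obtain ⟨h1, p, hp, hp'⟩ := h12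
      rw [Sat_isPi, update_self] at h1
      refine h x h1 ⟨p, ?_, fun a ha => ?_⟩
      · rw [Sat_prf, update_self, update_of_ne (by omega), update_self] at hp
        exact hp
      · have h5 := hp' a (by
          rw [Sat_axIn, update_self, update_of_ne (by omega), update_self]; exact ha)
        obtain ⟨h3, h4⟩ := h5
        rw [Sat_sig M hσ, update_self] at h3
        rw [update_self, update_of_ne (by omega), update_of_ne (by omega),
              update_of_ne (by omega), update_self] at h4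
        exact ⟨h3, h4⟩
  have htr' : ∀ x, mtr M 𝒜 x ↔ ∀ A ∈ M.sets,
      Sat M (update (update v 3 (v 0)) 2 x) (update V i A) θ := by
    intro x
    have h1 := Sat_tr M 𝒜 (update (update v 3 (v 0)) 2 x) V
    rw [update_self] at h1
    unfold mtr
    rw [← h1, htr]
    exact Iff.rfl
  simp only [tau, Sat, key]
  constructor
  · intro h
    obtain ⟨A0, hA0⟩ := M.sets_nonempty
    refine ⟨(h A0 hA0).1, fun x h1 h2 => ?_⟩
    rw [htr']
    exact fun A hA => (h A hA).2 x h1 h2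
  · rintro ⟨h1, h2⟩ A hA
    exact ⟨h1, fun x h3 h4 => (htr' x).1 (h2 x h3 h4) A hA⟩

end sat

theorem tau_pi {𝒜 : Arithmetization} {σ θ : Fm} {i : ℕ} (hσ : σ.Arithmetical)
    (hθ : θ.Arithmetical) : (tau 𝒜 σ i θ).IsPi11 := by
  refine ⟨i, _, rfl, ?_⟩
  simp only [tauBody, restr, Arithmetization.Pr, Fm.Arithmetical, Fm.imp, Fm.ex, Fm.or]
  exact ⟨hσ, trivial, ⟨𝒜.isPi_arith, 𝒜.prf_arith, 𝒜.axIn_arith, hσ, trivial, trivial⟩, hθ⟩

theorem tau_free {𝒜 : Arithmetization} {σ θ : Fm} {i : ℕ} (hσ : σ.FreeIn {0})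
    (htr : 𝒜.tr = .allS i θ) : (tau 𝒜 σ i θ).FreeIn {0} := by
  have hθ : θ.fvN ⊆ {2} := by
    have := 𝒜.tr_free.1
    rw [htr] at this
    exact this
  have hθ' : θ.fvS \ {i} = ∅ := by
    have := 𝒜.tr_free.2
    rw [htr] at this
    exact this
  have hθ'' : ∀ x, x ∈ θ.fvS → x = i := by
    intro x hx
    by_contra hne
    have : x ∈ θ.fvS \ {i} := ⟨hx, hne⟩
    rw [hθ'] at this
    exact this
  constructor
  · intro x hx
    simp only [tau, tauBody, restr, Arithmetization.Pr, Fm.fvN, Fm.imp, Fm.ex, Fm.or, Tm.fv,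
      Set.mem_union, Set.mem_sdiff, Set.mem_singleton_iff] at hx
    have h1 : x ∈ σ.fvN → x ∈ ({0} : Set ℕ) := fun h => hσ.1 h
    have h2 : x ∈ 𝒜.isPi.fvN → x ∈ ({2} : Set ℕ) := fun h => 𝒜.isPi_free.1 h
    have h3 : x ∈ 𝒜.prf.fvN → x ∈ ({1, 2} : Set ℕ) := fun h => 𝒜.prf_free.1 h
    have h4 : x ∈ 𝒜.axIn.fvN → x ∈ ({0, 1} : Set ℕ) := fun h => 𝒜.axIn_free.1 h
    have h5 : x ∈ θ.fvN → x ∈ ({2} : Set ℕ) := fun h => hθ h
    simp only [Set.mem_insert_iff, Set.mem_singleton_iff] at h1 h2 h3 h4 h5 ⊢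
    tauto
  · refine Set.eq_empty_iff_forall_notMem.mpr fun x hx => ?_
    simp only [tau, tauBody, restr, Arithmetization.Pr, Fm.fvS, Fm.imp, Fm.ex, Fm.or,
      𝒜.isPi_free.2, 𝒜.prf_free.2, 𝒜.axIn_free.2, hσ.2,
      Set.mem_union, Set.mem_sdiff, Set.mem_singleton_iff, Set.mem_empty_iff_false, false_or,
      or_false] at hx
    exact hx.2 (hθ'' x hx.1)

theorem refl_sentence (𝒜 : Arithmetization) {τ : Fm} (hτ : τ.FreeIn {0}) :
    (𝒜.reflection τ).IsSentence := by
  constructor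
  · refine Set.eq_empty_iff_forall_notMem.mpr fun x hx => ?_
    simp only [Arithmetization.reflection, Arithmetization.Pr, Fm.fvN, Fm.imp, Fm.ex,
      Set.mem_union, Set.mem_sdiff, Set.mem_singleton_iff] at hx
    have h1 : x ∈ τ.fvN → x ∈ ({0} : Set ℕ) := fun h => hτ.1 h
    have h2 : x ∈ 𝒜.isPi.fvN → x ∈ ({2} : Set ℕ) := fun h => 𝒜.isPi_free.1 h
    have h3 : x ∈ 𝒜.prf.fvN → x ∈ ({1, 2} : Set ℕ) := fun h => 𝒜.prf_free.1 h
    have h4 : x ∈ 𝒜.axIn.fvN → x ∈ ({0, 1} : Set ℕ) := fun h => 𝒜.axIn_free.1 h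
    have h5 : x ∈ 𝒜.tr.fvN → x ∈ ({2} : Set ℕ) := fun h => 𝒜.tr_free.1 h
    simp only [Set.mem_insert_iff, Set.mem_singleton_iff] at h1 h2 h3 h4 h5
    tauto
  · refine Set.eq_empty_iff_forall_notMem.mpr fun x hx => ?_
    simp only [Arithmetization.reflection, Arithmetization.Pr, Fm.fvS, Fm.imp, Fm.ex,
      𝒜.isPi_free.2, 𝒜.prf_free.2, 𝒜.axIn_free.2, hτ.2, 𝒜.tr_free.2,
      Set.mem_union, Set.mem_empty_iff_false, or_false] at hx

theorem falsum_free : falsum.FreeIn {0} := by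
  constructor
  · intro x hx
    simp [falsum, Fm.fvN, Tm.fv] at hx
  · simp [falsum, Fm.fvS]

theorem rho0_sentence (𝒜 : Arithmetization) : (rho0 𝒜).IsSentence := refl_sentence 𝒜 falsum_free

theorem rho1_sentence (𝒜 : Arithmetization) : (rho1 𝒜).IsSentence := by
  constructor
  · refine Set.eq_empty_iff_forall_notMem.mpr fun x hx => ?_
    simp only [rho1, Fm.fvN, Fm.imp, Fm.ex, Fm.or, Tm.fv,
      Set.mem_union, Set.mem_sdiff, Set.mem_singleton_iff] at hx
    have h4 : x ∈ 𝒜.axIn.fvN → x ∈ ({0, 1} : Set ℕ) := fun h => 𝒜.axIn_free.1 h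
    simp only [Set.mem_insert_iff, Set.mem_singleton_iff] at h4
    tauto
  · refine Set.eq_empty_iff_forall_notMem.mpr fun x hx => ?_
    simp only [rho1, Fm.fvS, Fm.imp, Fm.ex, Fm.or, 𝒜.axIn_free.2,
      Set.mem_union, Set.mem_empty_iff_false, or_false] at hx

theorem std_holds {φ : Fm} : std.Holds φ ↔ ∀ (v : ℕ → ℕ) (V : ℕ → Set ℕ), SN v V φ :=
  ⟨fun h v V => h v V fun _ => trivial, fun h v V _ => h v V⟩

theorem aca_std : ∀ φ, ACA0 φ → std.Holds φ := by
  intro φ h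
  rw [std_holds]
  intro v V
  cases h with
  | succ_ne_zero => simp
  | succ_inj => simp
  | add_zero => simp
  | add_succ => simp [Nat.add_assoc]
  | mul_zero => simp
  | mul_succ => simp [Nat.mul_succ]
  | not_lt_zero => simp
  | lt_succ =>
    simp only [SN_iff, SN_lt, SN_or, SN_eq, vN_var, vN_add, vN_one]
    omega
  | induction =>
    simp only [SN_imp, SN_and, SN_mem, SN_all, vN_zero, vN_var, vN_add, vN_one, update_self]
    rintro ⟨h1, h2⟩ a
    induction a with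
    | zero => exact h1
    | succ n ih => exact h2 n ih
  | comprehension φ i j hφ hj =>
    simp only [SN_exS, SN_all, SN_iff, SN_mem, vN_var, update_self]
    refine ⟨{a | SN (update v i a) V φ}, fun a => ?_⟩
    simp only [Set.mem_ofPred_eq]
    refine SN_congr φ _ _ _ _ (fun _ _ => rfl) (fun k hk => ?_)
    rw [update_of_ne]
    rintro rfl
    exact hj hk

theorem tr_std (𝒜 : Arithmetization) {φ : Fm} (hφ : φ.IsPi11Sentence) (h : std.Holds φ) :
    mtr std 𝒜 φ.code := by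
  have h1 := 𝒜.tr_proves φ hφ std (fun ψ hψ => aca_std ψ hψ)
  have h2 := std_holds.1 h1 (fun _ => 0) (fun _ => ∅)
  rw [SN_iff] at h2
  have h3 := h2.2 (std_holds.1 h _ _)
  simp only [Fm.inst, SN_all, SN_imp, SN_eq, vN_var, update_self] at h3
  have h4 := h3 φ.code (by
    have : vN (update (fun _ => 0) 2 φ.code) (numeral φ.code) = std.num φ.code :=
      val_numeral std _ _
    rw [this]
    exact (std_num φ.code).symm)
  exact (Sat_tr std 𝒜 _ _).1 h4

/-- **Feferman's trick.** Let `T` be an arithmetically definable set of true sentences which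
contains the two sentences `rho0` and `rho1`. Then `T` proves its own `Pi^1_1`-soundness, for a
suitable `Pi^1_1` definition of `T`. -/
theorem feferman (𝒜 : Arithmetization) (T : Set Fm)
    (hT : ∀ φ ∈ T, φ.IsSentence) (htrue : ∀ φ ∈ T, std.Holds φ) (h0 : rho0 𝒜 ∈ T)
    (h1 : rho1 𝒜 ∈ T) {σ : Fm} (hσ : σ.Arithmetical) (hσ' : σ.FreeIn {0})
    (hdef : ∀ n : ℕ, SatN n 0 0 σ ↔ ∃ φ ∈ T, φ.code = n) :
    ∃ τ : Fm, Pi11Defines τ T ∧ Proves T (𝒜.reflection τ) := by
  obtain ⟨i, θ, htr, hθ⟩ := 𝒜.tr_pi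
  refine ⟨tau 𝒜 σ i θ, ⟨tau_pi hσ hθ, tau_free hσ' htr, fun n => ?_⟩, ?_⟩
  · refine (Sat_tau std 𝒜 hσ' htr (asg (A := ℕ) n 0 0) (fun _ => (∅ : Set ℕ))).trans ?_
    constructor
    · rintro ⟨h2, _⟩
      exact (hdef n).1 h2
    · intro h2
      refine ⟨(hdef n).2 h2, ?_⟩
      rintro x hx ⟨p, hp, hax⟩
      have hx' : SatN 0 0 x 𝒜.isPi := hx
      obtain ⟨φ, hφ, rfl⟩ := (𝒜.isPi_std x).1 hx'
      have h3 : Proves T φ := (𝒜.prf_correct T hT φ hφ.2).2 ⟨p, hp, fun a ha =>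
        (hdef a).1 (hax a ha).1⟩
      exact tr_std 𝒜 hφ (h3 std htrue)
  · intro M hM
    rw [holds_reflection M 𝒜 (tau_free hσ' htr)]
    rintro x hx ⟨p, hp, hax⟩
    have h2 := (holds_rho1 M 𝒜).1 (hM _ h1) p
    rcases h2 with h2 | ⟨b, hb, hb'⟩
    · have h3 := (holds_reflection M 𝒜 falsum_free).1 (hM _ h0)
      exact h3 x hx ⟨p, hp, fun a ha => absurd ha (h2 a)⟩
    · have h3 : Sat M (asg b M.zero M.zero) (fun _ => ∅) (tau 𝒜 σ i θ) := hax b hb
      rw [Sat_tau M 𝒜 hσ' htr] at h3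
      refine h3.2 x hx ⟨p, hp, fun a ha => ⟨?_, hb' a ha⟩⟩
      have h4 : Sat M (asg a M.zero M.zero) (fun _ => ∅) (tau 𝒜 σ i θ) := hax a ha
      rw [Sat_tau M 𝒜 hσ' htr] at h4
      exact h4.1

theorem rho0_true (𝒜 : Arithmetization) : std.Holds (rho0 𝒜) := by
  unfold rho0
  rw [holds_reflection std 𝒜 falsum_free]
  rintro x hx ⟨p, hp, hax⟩
  have hx' : SatN 0 0 x 𝒜.isPi := hx
  obtain ⟨φ, hφ, rfl⟩ := (𝒜.isPi_std x).1 hx'
  have h3 : Proves ∅ φ := (𝒜.prf_correct ∅ (fun _ h => h.elim) φ hφ.2).2 ⟨p, hp, fun a ha => by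
    have := msig_falsum std a (hax a ha)
    exact absurd (this : (0 : ℕ) = 1) Nat.zero_ne_one⟩
  exact tr_std 𝒜 hφ (h3 std (fun _ h => h.elim))

theorem rho1_true (𝒜 : Arithmetization)
    (hfin : ∀ p : ℕ, {a : ℕ | SatN a p 0 𝒜.axIn}.Finite) : std.Holds (rho1 𝒜) := by
  rw [holds_rho1]
  intro (p : ℕ)
  have hf : {a : ℕ | SatN a p 0 𝒜.axIn}.Finite := hfin p
  by_cases hne : {a : ℕ | SatN a p 0 𝒜.axIn}.Nonempty
  · right
    obtain ⟨b, hb, hb'⟩ := Set.exists_max_image _ (fun a => a) hf hne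
    refine ⟨b, hb, fun (a : ℕ) ha => ?_⟩
    have h2 : a ≤ b := hb' a ha
    exact lt_or_eq_of_le h2
  · left
    intro a ha
    exact hne ⟨a, ha⟩

end Pool.Agent.U99.PS
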