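import Pool.Agent.U99.PS.Codes

/-!
# The axioms of `Sigma^1_1`-`AC_0` as an arithmetically definable set of sentences
-/

set_option autoImplicit false

namespace Pool.Agent.U99.PS

open Function Pool.Agent.H986R3.SOA Pool.Agent.Helper180.ArithDef

/-- All variables of the term are `< n`. -/
def tlt (n : ℕ) : Tm → Prop
  | .var i => i < n
  | .zero => True
  | .one => True
  | .add s t => tlt n s ∧ tlt n t
  | .mul s t => tlt n s ∧ tlt n t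

/-- All number and set variables (free or bound) of the formula are `< n`. -/
def flt (n : ℕ) : Fm → Prop
  | .eq s t => tlt n s ∧ tlt n t
  | .lt s t => tlt n s ∧ tlt n t
  | .mem t i => tlt n t ∧ i < n
  | .neg φ => flt n φ
  | .and φ ψ => flt n φ ∧ flt n ψ
  | .all i φ => i < n ∧ flt n φ
  | .allS i φ => i < n ∧ flt n φ

theorem tlt_mono {m n : ℕ} (h : m ≤ n) : ∀ t : Tm, tlt m t → tlt n t
  | .var _, h1 => lt_of_lt_of_le h1 h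
  | .zero, _ => trivial
  | .one, _ => trivial
  | .add s t, h1 => ⟨tlt_mono h s h1.1, tlt_mono h t h1.2⟩
  | .mul s t, h1 => ⟨tlt_mono h s h1.1, tlt_mono h t h1.2⟩

theorem flt_mono {m n : ℕ} (h : m ≤ n) : ∀ φ : Fm, flt m φ → flt n φ
  | .eq s t, h1 => ⟨tlt_mono h s h1.1, tlt_mono h t h1.2⟩
  | .lt s t, h1 => ⟨tlt_mono h s h1.1, tlt_mono h t h1.2⟩
  | .mem t _, h1 => ⟨tlt_mono h t h1.1, lt_of_lt_of_le h1.2 h⟩
  | .neg φ, h1 => flt_mono h φ h1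
  | .and φ ψ, h1 => ⟨flt_mono h φ h1.1, flt_mono h ψ h1.2⟩
  | .all _ φ, h1 => ⟨lt_of_lt_of_le h1.1 h, flt_mono h φ h1.2⟩
  | .allS _ φ, h1 => ⟨lt_of_lt_of_le h1.1 h, flt_mono h φ h1.2⟩

theorem exists_tlt : ∀ t : Tm, ∃ n, tlt n t
  | .var i => ⟨i + 1, Nat.lt_succ_self i⟩
  | .zero => ⟨0, trivial⟩
  | .one => ⟨0, trivial⟩
  | .add s t => by
      obtain ⟨m, hm⟩ := exists_tlt s
      obtain ⟨n, hn⟩ := exists_tlt t
      exact ⟨max m n, tlt_mono (le_max_left _ _) s hm, tlt_mono (le_max_right _ _) t hn⟩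
  | .mul s t => by
      obtain ⟨m, hm⟩ := exists_tlt s
      obtain ⟨n, hn⟩ := exists_tlt t
      exact ⟨max m n, tlt_mono (le_max_left _ _) s hm, tlt_mono (le_max_right _ _) t hn⟩

theorem exists_flt : ∀ φ : Fm, ∃ n, flt n φ
  | .eq s t => exists_tlt (.add s t)
  | .lt s t => exists_tlt (.add s t)
  | .mem t i => by
      obtain ⟨m, hm⟩ := exists_tlt t
      exact ⟨max m (i + 1), tlt_mono (le_max_left _ _) t hm,
        lt_of_lt_of_le (Nat.lt_succ_self i) (le_max_right _ _)⟩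
  | .neg φ => exists_flt φ
  | .and s t => by
      obtain ⟨m, hm⟩ := exists_flt s
      obtain ⟨n, hn⟩ := exists_flt t
      exact ⟨max m n, flt_mono (le_max_left _ _) s hm, flt_mono (le_max_right _ _) t hn⟩
  | .all i t => by
      obtain ⟨m, hm⟩ := exists_flt t
      exact ⟨max m (i + 1), lt_of_lt_of_le (Nat.lt_succ_self i) (le_max_right _ _),
        flt_mono (le_max_left _ _) t hm⟩
  | .allS i t => by
      obtain ⟨m, hm⟩ := exists_flt t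
      exact ⟨max m (i + 1), lt_of_lt_of_le (Nat.lt_succ_self i) (le_max_right _ _),
        flt_mono (le_max_left _ _) t hm⟩

theorem tlt_fv {n : ℕ} : ∀ t : Tm, tlt n t → ∀ i ∈ t.fv, i < n
  | .var j, h, i, hi => by
      simp only [Tm.fv, Set.mem_singleton_iff] at hi
      subst hi; exact h
  | .zero, _, _, hi => hi.elim
  | .one, _, _, hi => hi.elim
  | .add s t, h, i, hi => hi.elim (tlt_fv s h.1 i) (tlt_fv t h.2 i)
  | .mul s t, h, i, hi => hi.elim (tlt_fv s h.1 i) (tlt_fv t h.2 i)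

theorem flt_fvN {n : ℕ} : ∀ φ : Fm, flt n φ → ∀ i ∈ φ.fvN, i < n
  | .eq s t, h, i, hi => hi.elim (tlt_fv s h.1 i) (tlt_fv t h.2 i)
  | .lt s t, h, i, hi => hi.elim (tlt_fv s h.1 i) (tlt_fv t h.2 i)
  | .mem t _, h, i, hi => tlt_fv t h.1 i hi
  | .neg φ, h, i, hi => flt_fvN φ h i hi
  | .and φ ψ, h, i, hi => hi.elim (flt_fvN φ h.1 i) (flt_fvN ψ h.2 i)
  | .all _ φ, h, i, hi => flt_fvN φ h.2 i hi.1
  | .allS _ φ, h, i, hi => flt_fvN φ h.2 i hi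

theorem flt_fvS {n : ℕ} : ∀ φ : Fm, flt n φ → ∀ i ∈ φ.fvS, i < n
  | .eq _ _, _, _, hi => hi.elim
  | .lt _ _, _, _, hi => hi.elim
  | .mem _ j, h, i, hi => by
      simp only [Fm.fvS, Set.mem_singleton_iff] at hi
      subst hi; exact h.2
  | .neg φ, h, i, hi => flt_fvS φ h i hi
  | .and φ ψ, h, i, hi => hi.elim (flt_fvS φ h.1 i) (flt_fvS ψ h.2 i)
  | .all _ φ, h, i, hi => flt_fvS φ h.2 i hi
  | .allS _ φ, h, i, hi => flt_fvS φ h.2 i hi.1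

/-! ## Codes of arithmetical formulas -/

/-- Base relation for the codes of terms. -/
def Bs (n e : ℕ) : Prop :=
  (∃ x, x < n ∧ e = Nat.pair 0 (pr 0 x)) ∨ e = Nat.pair 0 (pr 1 0) ∨ e = Nat.pair 0 (pr 2 0)

/-- Formation rules. -/
def Stp (n a b e : ℕ) : Prop :=
  (∃ x y, a = Nat.pair 0 x ∧ b = Nat.pair 0 y ∧ (e = Nat.pair 0 (pr 3 (pr x y)) ∨
    e = Nat.pair 0 (pr 4 (pr x y)) ∨ e = Nat.pair 1 (pr 0 (pr x y)) ∨
    e = Nat.pair 1 (pr 1 (pr x y)) ∨ ∃ i, i < n ∧ e = Nat.pair 1 (pr 2 (pr x i)))) ∨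
  (∃ x y, a = Nat.pair 1 x ∧ b = Nat.pair 1 y ∧ (e = Nat.pair 1 (pr 3 x) ∨
    e = Nat.pair 1 (pr 4 (pr x y)) ∨ ∃ i, i < n ∧ e = Nat.pair 1 (pr 5 (pr i x))))

theorem gen_sound {n e : ℕ} (h : Gen Bs Stp n e) :
    (∃ t : Tm, tlt n t ∧ e = Nat.pair 0 t.code) ∨
      (∃ φ : Fm, φ.Arithmetical ∧ flt n φ ∧ e = Nat.pair 1 φ.code) := by
  induction h with
  | base e he =>
    rcases he with ⟨x, hx, rfl⟩ | rfl | rfl
    · exact Or.inl ⟨.var x, hx, rfl⟩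
    · exact Or.inl ⟨.zero, trivial, rfl⟩
    · exact Or.inl ⟨.one, trivial, rfl⟩
  | step a b e _ _ hst ih1 ih2 =>
    rcases hst with ⟨x, y, ha, hb, h⟩ | ⟨x, y, ha, hb, h⟩
    · have h1 : ∃ t : Tm, tlt n t ∧ x = t.code := by
        rcases ih1 with ⟨t, ht, he⟩ | ⟨φ, _, _, he⟩
        · rw [ha] at he
          exact ⟨t, ht, (Nat.pair_eq_pair.1 he).2⟩
        · rw [ha] at he
          have := (Nat.pair_eq_pair.1 he).1
          omega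
      have h2 : ∃ t : Tm, tlt n t ∧ y = t.code := by
        rcases ih2 with ⟨t, ht, he⟩ | ⟨φ, _, _, he⟩
        · rw [hb] at he
          exact ⟨t, ht, (Nat.pair_eq_pair.1 he).2⟩
        · rw [hb] at he
          have := (Nat.pair_eq_pair.1 he).1
          omega
      obtain ⟨s, hs, rfl⟩ := h1
      obtain ⟨t, ht, rfl⟩ := h2
      rcases h with rfl | rfl | rfl | rfl | ⟨i, hi, rfl⟩
      · exact Or.inl ⟨.add s t, ⟨hs, ht⟩, rfl⟩
      · exact Or.inl ⟨.mul s t, ⟨hs, ht⟩, rfl⟩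
      · exact Or.inr ⟨.eq s t, trivial, ⟨hs, ht⟩, rfl⟩
      · exact Or.inr ⟨.lt s t, trivial, ⟨hs, ht⟩, rfl⟩
      · exact Or.inr ⟨.mem s i, trivial, ⟨hs, hi⟩, rfl⟩
    · have h1 : ∃ φ : Fm, φ.Arithmetical ∧ flt n φ ∧ x = φ.code := by
        rcases ih1 with ⟨t, ht, he⟩ | ⟨φ, hφ, hφ', he⟩
        · rw [ha] at he
          have := (Nat.pair_eq_pair.1 he).1
          omega
        · rw [ha] at he
          exact ⟨φ, hφ, hφ', (Nat.pair_eq_pair.1 he).2⟩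
      have h2 : ∃ φ : Fm, φ.Arithmetical ∧ flt n φ ∧ y = φ.code := by
        rcases ih2 with ⟨t, ht, he⟩ | ⟨φ, hφ, hφ', he⟩
        · rw [hb] at he
          have := (Nat.pair_eq_pair.1 he).1
          omega
        · rw [hb] at he
          exact ⟨φ, hφ, hφ', (Nat.pair_eq_pair.1 he).2⟩
      obtain ⟨φ, hφ, hφ', rfl⟩ := h1
      obtain ⟨ψ, hψ, hψ', rfl⟩ := h2
      rcases h with rfl | rfl | ⟨i, hi, rfl⟩
      · exact Or.inr ⟨.neg φ, hφ, hφ', rfl⟩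
      · exact Or.inr ⟨.and φ ψ, ⟨hφ, hψ⟩, ⟨hφ', hψ'⟩, rfl⟩
      · exact Or.inr ⟨.all i φ, hφ, ⟨hi, hφ'⟩, rfl⟩

theorem gen_tm {n : ℕ} : ∀ t : Tm, tlt n t → Gen Bs Stp n (Nat.pair 0 t.code)
  | .var i, h => .base _ (Or.inl ⟨i, h, rfl⟩)
  | .zero, _ => .base _ (Or.inr (Or.inl rfl))
  | .one, _ => .base _ (Or.inr (Or.inr rfl))
  | .add s t, h => .step _ _ _ (gen_tm s h.1) (gen_tm t h.2)
      (Or.inl ⟨_, _, rfl, rfl, Or.inl rfl⟩)
  | .mul s t, h => .step _ _ _ (gen_tm s h.1) (gen_tm t h.2)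
      (Or.inl ⟨_, _, rfl, rfl, Or.inr (Or.inl rfl)⟩)

theorem gen_fm {n : ℕ} : ∀ φ : Fm, φ.Arithmetical → flt n φ → Gen Bs Stp n (Nat.pair 1 φ.code)
  | .eq s t, _, h => .step _ _ _ (gen_tm s h.1) (gen_tm t h.2)
      (Or.inl ⟨_, _, rfl, rfl, Or.inr (Or.inr (Or.inl rfl))⟩)
  | .lt s t, _, h => .step _ _ _ (gen_tm s h.1) (gen_tm t h.2)
      (Or.inl ⟨_, _, rfl, rfl, Or.inr (Or.inr (Or.inr (Or.inl rfl)))⟩)
  | .mem t i, _, h => .step _ _ _ (gen_tm t h.1) (gen_tm t h.1)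
      (Or.inl ⟨_, _, rfl, rfl, Or.inr (Or.inr (Or.inr (Or.inr ⟨i, h.2, rfl⟩)))⟩)
  | .neg φ, ha, h => .step _ _ _ (gen_fm φ ha h) (gen_fm φ ha h)
      (Or.inr ⟨_, _, rfl, rfl, Or.inl rfl⟩)
  | .and φ ψ, ha, h => .step _ _ _ (gen_fm φ ha.1 h.1) (gen_fm ψ ha.2 h.2)
      (Or.inr ⟨_, _, rfl, rfl, Or.inr (Or.inl rfl)⟩)
  | .all i φ, ha, h => .step _ _ _ (gen_fm φ ha h.2) (gen_fm φ ha h.2)
      (Or.inr ⟨_, _, rfl, rfl, Or.inr (Or.inr ⟨i, h.1, rfl⟩)⟩)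
  | .allS _ _, ha, _ => ha.elim

theorem gen_code {n c : ℕ} : Gen Bs Stp n (Nat.pair 1 c) ↔
    ∃ φ : Fm, φ.Arithmetical ∧ flt n φ ∧ c = φ.code := by
  constructor
  · intro h
    rcases gen_sound h with ⟨t, _, he⟩ | ⟨φ, h1, h2, he⟩
    · have := (Nat.pair_eq_pair.1 he).1
      omega
    · exact ⟨φ, h1, h2, (Nat.pair_eq_pair.1 he).2⟩
  · rintro ⟨φ, h1, h2, rfl⟩
    exact gen_fm φ h1 h2

theorem Bs_DA : DA (fun w => Bs (w 0) (w 1)) := by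
  have h := dcA
  refine h.or (h.ex' (S := fun x w => x < w 0 ∧ w 1 = Nat.pair 0 (pr 0 x))
    (h.and (h.lt (h.tvar 0) (h.tvar 1))
      (h.eq (h.tvar 2) (h.tpair (tconst 0) (tpr (tconst 0) (h.tvar 0)))))) ?_
  exact h.or (h.eq (h.tvar 1) (h.tpair (tconst 0) (tpr (tconst 1) (tconst 0))))
    (h.eq (h.tvar 1) (h.tpair (tconst 0) (tpr (tconst 2) (tconst 0))))

theorem Stp_DA : DA (fun w => Stp (w 0) (w 1) (w 2) (w 3)) := by
  have h := dcA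
  refine h.or ?_ ?_
  · refine h.ex' (S := fun x w => ∃ y, w 1 = Nat.pair 0 x ∧ w 2 = Nat.pair 0 y ∧
      (w 3 = Nat.pair 0 (pr 3 (pr x y)) ∨
      w 3 = Nat.pair 0 (pr 4 (pr x y)) ∨ w 3 = Nat.pair 1 (pr 0 (pr x y)) ∨
      w 3 = Nat.pair 1 (pr 1 (pr x y)) ∨ ∃ i, i < w 0 ∧ w 3 = Nat.pair 1 (pr 2 (pr x i)))) ?_
    refine h.ex' (S := fun y w => w 2 = Nat.pair 0 (w 0) ∧ w 3 = Nat.pair 0 y ∧
      (w 4 = Nat.pair 0 (pr 3 (pr (w 0) y)) ∨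
      w 4 = Nat.pair 0 (pr 4 (pr (w 0) y)) ∨ w 4 = Nat.pair 1 (pr 0 (pr (w 0) y)) ∨
      w 4 = Nat.pair 1 (pr 1 (pr (w 0) y)) ∨
      ∃ i, i < w 1 ∧ w 4 = Nat.pair 1 (pr 2 (pr (w 0) i)))) ?_
    -- 0 = y, 1 = x, 2 = n, 3 = a, 4 = b, 5 = e
    refine h.and (h.eq (h.tvar 3) (h.tpair (tconst 0) (h.tvar 1))) ?_
    refine h.and (h.eq (h.tvar 4) (h.tpair (tconst 0) (h.tvar 0))) ?_
    refine h.or (h.eq (h.tvar 5) (h.tpair (tconst 0) (tpr (tconst 3) (tpr (h.tvar 1) (h.tvar 0))))) ?_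
    refine h.or (h.eq (h.tvar 5) (h.tpair (tconst 0) (tpr (tconst 4) (tpr (h.tvar 1) (h.tvar 0))))) ?_
    refine h.or (h.eq (h.tvar 5) (h.tpair (tconst 1) (tpr (tconst 0) (tpr (h.tvar 1) (h.tvar 0))))) ?_
    refine h.or (h.eq (h.tvar 5) (h.tpair (tconst 1) (tpr (tconst 1) (tpr (h.tvar 1) (h.tvar 0))))) ?_
    refine h.ex' (S := fun i w => i < w 2 ∧ w 5 = Nat.pair 1 (pr 2 (pr (w 1) i))) ?_
    exact h.and (h.lt (h.tvar 0) (h.tvar 3))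
      (h.eq (h.tvar 6) (h.tpair (tconst 1) (tpr (tconst 2) (tpr (h.tvar 2) (h.tvar 0)))))
  · refine h.ex' (S := fun x w => ∃ y, w 1 = Nat.pair 1 x ∧ w 2 = Nat.pair 1 y ∧
      (w 3 = Nat.pair 1 (pr 3 x) ∨
      w 3 = Nat.pair 1 (pr 4 (pr x y)) ∨ ∃ i, i < w 0 ∧ w 3 = Nat.pair 1 (pr 5 (pr i x)))) ?_
    refine h.ex' (S := fun y w => w 2 = Nat.pair 1 (w 0) ∧ w 3 = Nat.pair 1 y ∧
      (w 4 = Nat.pair 1 (pr 3 (w 0)) ∨
      w 4 = Nat.pair 1 (pr 4 (pr (w 0) y)) ∨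
      ∃ i, i < w 1 ∧ w 4 = Nat.pair 1 (pr 5 (pr i (w 0))))) ?_
    refine h.and (h.eq (h.tvar 3) (h.tpair (tconst 1) (h.tvar 1))) ?_
    refine h.and (h.eq (h.tvar 4) (h.tpair (tconst 1) (h.tvar 0))) ?_
    refine h.or (h.eq (h.tvar 5) (h.tpair (tconst 1) (tpr (tconst 3) (h.tvar 1)))) ?_
    refine h.or (h.eq (h.tvar 5) (h.tpair (tconst 1) (tpr (tconst 4) (tpr (h.tvar 1) (h.tvar 0))))) ?_
    refine h.ex' (S := fun i w => i < w 2 ∧ w 5 = Nat.pair 1 (pr 5 (pr i (w 1)))) ?_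
    exact h.and (h.lt (h.tvar 0) (h.tvar 3))
      (h.eq (h.tvar 6) (h.tpair (tconst 1) (tpr (tconst 5) (tpr (h.tvar 0) (h.tvar 2)))))

/-- The relation that `c` is the Goedel number of an arithmetical formula with all variables `< n`
is definable. -/
theorem arith_DA : DA (fun w => ∃ φ : Fm, φ.Arithmetical ∧ flt (w 0) φ ∧ w 1 = φ.code) := by
  have h := dcA
  refine h.iff (fun w => gen_code) ?_
  exact h.app2 (R := fun n e => Gen Bs Stp n e) (gen_DA Bs_DA Stp_DA) (h.tvar 0)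
    (h.tpair (tconst 1) (h.tvar 1))

end Pool.Agent.U99.PS
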