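import Pool.Agent.U99.PS.Feferman

/-!
# `Sigma^1_1`-`AC_0` and a theory of sentences that axiomatizes it
-/

set_option autoImplicit false

namespace Pool.Agent.U99.PS

open Function Pool.Agent.H986R3.SOA Pool.Agent.Helper180.ArithDef

/-- The comprehension axiom for `φ`. -/
def compF (φ : Fm) (i j : ℕ) : Fm := .exS j (.all i (.iff (.mem (.var i) j) φ))

section sat
variable (M : Model)

theorem Sat_compF {φ : Fm} {i j : ℕ} (hj : j ∉ φ.fvS) (v : ℕ → M.Num) (V : ℕ → Set M.Num) :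
    Sat M v V (compF φ i j) ↔ ∃ A ∈ M.sets, ∀ a, (a ∈ A ↔ Sat M (update v i a) V φ) := by
  simp only [compF, Sat_exS, Sat, Sat_iff, Tm.val, update_self]
  refine exists_congr fun A => and_congr Iff.rfl (forall_congr' fun a => iff_congr Iff.rfl ?_)
  refine Sat_congr M φ _ _ _ _ (fun _ _ => rfl) (fun k hk => ?_)
  rw [update_of_ne]
  rintro rfl
  exact hj hk

theorem Sat_choiceF {η : Fm} {i j k m : ℕ} (hk : k ∉ η.fvS) (hkj : k ≠ j) (hm : m ≠ i)
    (v : ℕ → M.Num) (V : ℕ → Set M.Num) :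
    Sat M v V (choiceF η i j k m) ↔
      ((∀ a, ∃ A ∈ M.sets, Sat M (update v i a) (update V j A) η) →
        ∃ Y ∈ M.sets, ∀ a, ∃ A ∈ M.sets, (∀ b, b ∈ A ↔ M.pr a b ∈ Y) ∧
          Sat M (update v i a) (update V j A) η) := by
  simp only [choiceF, Sat_imp, Sat_exS, Sat, Sat_iff, Tm.val, val_prT, update_self]
  refine imp_congr Iff.rfl (exists_congr fun Y => and_congr Iff.rfl (forall_congr' fun a =>
    exists_congr fun A => and_congr Iff.rfl (and_congr (forall_congr' fun b => ?_) ?_)))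
  · rw [update_of_ne hkj, update_of_ne hm.symm, update_self, update_self]
  · refine Sat_congr M η _ _ _ _ (fun _ _ => rfl) (fun l hl => ?_)
    by_cases hlj : l = j
    · subst hlj
      simp
    · rw [update_of_ne hlj, update_of_ne hlj, update_of_ne]
      rintro rfl
      exact hk hl

end sat

/-- Universal closure with respect to the set variables `0, ..., n - 1`. -/
def clS (φ : Fm) : ℕ → Fm
  | 0 => φ
  | n + 1 => .allS n (clS φ n)

/-- Universal closure with respect to the number variables `0, ..., n - 1`. -/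
def clN (φ : Fm) : ℕ → Fm
  | 0 => φ
  | n + 1 => .all n (clN φ n)

/-- Universal closure with respect to the first `n` number variables and the first `n` set
variables. -/
def cl (n : ℕ) (φ : Fm) : Fm := clN (clS φ n) n

theorem holds_all (M : Model) (i : ℕ) (φ : Fm) : M.Holds (.all i φ) ↔ M.Holds φ := by
  constructor
  · intro h v V hV
    have h1 := h v V hV (v i)
    rwa [update_eq_self] at h1
  · intro h v V hV a
    exact h _ _ hV

theorem holds_allS (M : Model) (i : ℕ) (φ : Fm) : M.Holds (.allS i φ) ↔ M.Holds φ := by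
  constructor
  · intro h v V hV
    have h1 := h v V hV (V i) (hV i)
    rwa [update_eq_self] at h1
  · intro h v V hV A hA
    refine h _ _ fun j => ?_
    by_cases hj : j = i
    · subst hj; rw [update_self]; exact hA
    · rw [update_of_ne hj]; exact hV j

theorem holds_clS (M : Model) (φ : Fm) : ∀ n, M.Holds (clS φ n) ↔ M.Holds φ
  | 0 => Iff.rfl
  | n + 1 => (holds_allS M n _).trans (holds_clS M φ n)

theorem holds_clN (M : Model) (φ : Fm) : ∀ n, M.Holds (clN φ n) ↔ M.Holds φ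
  | 0 => Iff.rfl
  | n + 1 => (holds_all M n _).trans (holds_clN M φ n)

theorem holds_cl (M : Model) (n : ℕ) (φ : Fm) : M.Holds (cl n φ) ↔ M.Holds φ :=
  (holds_clN M _ n).trans (holds_clS M φ n)

theorem clS_fvS (φ : Fm) : ∀ n, (clS φ n).fvS = φ.fvS \ {j | j < n}
  | 0 => by simp [clS]
  | n + 1 => by
      simp only [clS, Fm.fvS, clS_fvS φ n]
      ext x
      simp only [Set.mem_sdiff, Set.mem_ofPred_eq, Set.mem_singleton_iff]
      constructor
      · rintro ⟨⟨h1, h2⟩, h3⟩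
        exact ⟨h1, by omega⟩
      · rintro ⟨h1, h2⟩
        exact ⟨⟨h1, by omega⟩, by omega⟩

theorem clS_fvN (φ : Fm) : ∀ n, (clS φ n).fvN = φ.fvN
  | 0 => rfl
  | n + 1 => clS_fvN φ n

theorem clN_fvN (φ : Fm) : ∀ n, (clN φ n).fvN = φ.fvN \ {j | j < n}
  | 0 => by simp [clN]
  | n + 1 => by
      simp only [clN, Fm.fvN, clN_fvN φ n]
      ext x
      simp only [Set.mem_sdiff, Set.mem_ofPred_eq, Set.mem_singleton_iff]
      constructor
      · rintro ⟨⟨h1, h2⟩, h3⟩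
        exact ⟨h1, by omega⟩
      · rintro ⟨h1, h2⟩
        exact ⟨⟨h1, by omega⟩, by omega⟩

theorem clN_fvS (φ : Fm) : ∀ n, (clN φ n).fvS = φ.fvS
  | 0 => rfl
  | n + 1 => clN_fvS φ n

theorem cl_sentence {n : ℕ} {φ : Fm} (h1 : ∀ i ∈ φ.fvN, i < n) (h2 : ∀ i ∈ φ.fvS, i < n) :
    (cl n φ).IsSentence := by
  constructor
  · rw [cl, clN_fvN, clS_fvN]
    exact Set.eq_empty_iff_forall_notMem.mpr fun x hx => hx.2 (h1 x hx.1)
  · rw [cl, clN_fvS, clS_fvS]
    exact Set.eq_empty_iff_forall_notMem.mpr fun x hx => hx.2 (h2 x hx.1)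

/-! ## Goedel numbers -/

/-- codes -/
def cneg (x : ℕ) : ℕ := pr 3 x
/-- codes -/
def cand (x y : ℕ) : ℕ := pr 4 (pr x y)
/-- codes -/
def cimp (x y : ℕ) : ℕ := cneg (cand x (cneg y))
/-- codes -/
def ciff (x y : ℕ) : ℕ := cand (cimp x y) (cimp y x)
/-- codes -/
def call (i x : ℕ) : ℕ := pr 5 (pr i x)
/-- codes -/
def callS (i x : ℕ) : ℕ := pr 6 (pr i x)
/-- codes -/
def cexS (i x : ℕ) : ℕ := cneg (callS i (cneg x))
/-- codes -/
def cmem (t i : ℕ) : ℕ := pr 2 (pr t i)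
/-- codes -/
def cvar (i : ℕ) : ℕ := pr 0 i
/-- codes -/
def cadd (x y : ℕ) : ℕ := pr 3 (pr x y)
/-- codes -/
def cmul (x y : ℕ) : ℕ := pr 4 (pr x y)
/-- codes -/
def cprT (x y : ℕ) : ℕ := cadd (cmul (cadd x y) (cadd x y)) x
/-- codes -/
def ccomp (c i j : ℕ) : ℕ := cexS j (call i (ciff (cmem (cvar i) j) c))
/-- codes -/
def cchoice (c i j k m : ℕ) : ℕ :=
  cimp (call i (cexS j c))
    (cexS k (call i (cexS j (cand (call m (ciff (cmem (cvar m) j)
      (cmem (cprT (cvar i) (cvar m)) k))) c))))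

theorem code_compF (φ : Fm) (i j : ℕ) : (compF φ i j).code = ccomp φ.code i j := rfl
theorem code_choiceF (φ : Fm) (i j k m : ℕ) :
    (choiceF φ i j k m).code = cchoice φ.code i j k m := rfl

/-- Code of the closure with respect to set variables. -/
def cclS (c : ℕ) : ℕ → ℕ
  | 0 => c
  | n + 1 => callS n (cclS c n)

/-- Code of the closure with respect to number variables. -/
def cclN (c : ℕ) : ℕ → ℕ
  | 0 => c
  | n + 1 => call n (cclN c n)

theorem code_clS (φ : Fm) : ∀ n, (clS φ n).code = cclS φ.code n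
  | 0 => rfl
  | n + 1 => by simp only [clS, Fm.code, code_clS φ n, cclS, callS]

theorem code_clN (φ : Fm) : ∀ n, (clN φ n).code = cclN φ.code n
  | 0 => rfl
  | n + 1 => by simp only [clN, Fm.code, code_clN φ n, cclN, call]

theorem code_cl (n : ℕ) (φ : Fm) : (cl n φ).code = cclN (cclS φ.code n) n := by
  rw [cl, code_clN, code_clS]

section DT
variable {F G : (ℕ → ℕ) → ℕ}

theorem tneg (hF : DT DA F) : DT DA (fun w => cneg (F w)) := tpr (tconst 3) hF
theorem tand (hF : DT DA F) (hG : DT DA G) : DT DA (fun w => cand (F w) (G w)) :=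
  tpr (tconst 4) (tpr hF hG)
theorem timp (hF : DT DA F) (hG : DT DA G) : DT DA (fun w => cimp (F w) (G w)) :=
  tneg (tand hF (tneg hG))
theorem tiff (hF : DT DA F) (hG : DT DA G) : DT DA (fun w => ciff (F w) (G w)) :=
  tand (timp hF hG) (timp hG hF)
theorem tall (hF : DT DA F) (hG : DT DA G) : DT DA (fun w => call (F w) (G w)) :=
  tpr (tconst 5) (tpr hF hG)
theorem tallS (hF : DT DA F) (hG : DT DA G) : DT DA (fun w => callS (F w) (G w)) :=
  tpr (tconst 6) (tpr hF hG)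
theorem texS (hF : DT DA F) (hG : DT DA G) : DT DA (fun w => cexS (F w) (G w)) :=
  tneg (tallS hF (tneg hG))
theorem tmem (hF : DT DA F) (hG : DT DA G) : DT DA (fun w => cmem (F w) (G w)) :=
  tpr (tconst 2) (tpr hF hG)
theorem tcvar (hF : DT DA F) : DT DA (fun w => cvar (F w)) := tpr (tconst 0) hF
theorem tcadd (hF : DT DA F) (hG : DT DA G) : DT DA (fun w => cadd (F w) (G w)) :=
  tpr (tconst 3) (tpr hF hG)
theorem tcmul (hF : DT DA F) (hG : DT DA G) : DT DA (fun w => cmul (F w) (G w)) :=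
  tpr (tconst 4) (tpr hF hG)
theorem tprT (hF : DT DA F) (hG : DT DA G) : DT DA (fun w => cprT (F w) (G w)) :=
  tcadd (tcmul (tcadd hF hG) (tcadd hF hG)) hF

end DT

theorem tcomp {C I J : (ℕ → ℕ) → ℕ} (hC : DT DA C) (hI : DT DA I) (hJ : DT DA J) :
    DT DA (fun w => ccomp (C w) (I w) (J w)) :=
  texS hJ (tall hI (tiff (tmem (tcvar hI) hJ) hC))

theorem tchoice {C I J K L : (ℕ → ℕ) → ℕ} (hC : DT DA C) (hI : DT DA I) (hJ : DT DA J)
    (hK : DT DA K) (hL : DT DA L) :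
    DT DA (fun w => cchoice (C w) (I w) (J w) (K w) (L w)) :=
  timp (tall hI (texS hJ hC)) (texS hK (tall hI (texS hJ (tand (tall hL (tiff (tmem (tcvar hL) hJ)
    (tmem (tprT (tcvar hI) (tcvar hL)) hK))) hC))))

theorem primrec_pr : Primrec₂ pr := by
  have h : Primrec₂ (fun a b : ℕ => (a + b) * (a + b) + a) :=
    Primrec.nat_add.comp (Primrec.nat_mul.comp
      (Primrec.nat_add.comp Primrec.fst Primrec.snd)
      (Primrec.nat_add.comp Primrec.fst Primrec.snd)) Primrec.fst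
  exact h

theorem trec {g : ℕ → ℕ → ℕ} (hg : Primrec (fun p : ℕ × ℕ => g p.1 p.2)) {F G : (ℕ → ℕ) → ℕ}
    (hF : DT DA F) (hG : DT DA G) : DT DA (fun w => g (F w) (G w)) := by
  have h := dcA
  have h1 : Nat.Partrec (fun n => Part.some (g n.unpair.1 n.unpair.2)) := by
    have h2 : Primrec (fun n : ℕ => g n.unpair.1 n.unpair.2) := hg.comp Primrec.unpair
    exact Nat.Partrec.of_primrec (Primrec.nat_iff.1 h2)
  have h3 := h.partrec h1
  have h4 : DA (fun w => w 1 = g (w 0).unpair.1 (w 0).unpair.2) :=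
    h.iff (fun w => by simp) h3
  have h5 : DT DA (fun w => g (Nat.pair (F w) (G w)).unpair.1 (Nat.pair (F w) (G w)).unpair.2) :=
    h.app2 (R := fun a b => b = g a.unpair.1 a.unpair.2) h4
      (h.tpair (h.tren (fun n => n + 1) hF) (h.tren (fun n => n + 1) hG)) (h.tvar 0)
  simpa using h5

theorem prim_cclS : Primrec (fun p : ℕ × ℕ => cclS p.1 p.2) := by
  have h : Primrec (fun p : ℕ × ℕ => (Nat.rec p.1 (fun k x => callS k x) p.2 : ℕ)) := by
    refine Primrec.nat_rec' (f := fun p : ℕ × ℕ => p.2) (g := fun p : ℕ × ℕ => p.1)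
      (h := fun (_ : ℕ × ℕ) (q : ℕ × ℕ) => callS q.1 q.2) Primrec.snd Primrec.fst ?_
    have h2 : Primrec (fun x : (ℕ × ℕ) × (ℕ × ℕ) => pr x.2.1 x.2.2) :=
      primrec_pr.comp (Primrec.fst.comp Primrec.snd) (Primrec.snd.comp Primrec.snd)
    have h3 : Primrec (fun x : (ℕ × ℕ) × (ℕ × ℕ) => pr 6 (pr x.2.1 x.2.2)) :=
      primrec_pr.comp (Primrec.const 6) h2
    exact h3
  refine h.of_eq ?_
  rintro ⟨c, n⟩
  induction n with
  | zero => rfl
  | succ n ih =>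
    simp only at ih
    simp only [cclS, ih]

theorem prim_cclN : Primrec (fun p : ℕ × ℕ => cclN p.1 p.2) := by
  have h : Primrec (fun p : ℕ × ℕ => (Nat.rec p.1 (fun k x => call k x) p.2 : ℕ)) := by
    refine Primrec.nat_rec' (f := fun p : ℕ × ℕ => p.2) (g := fun p : ℕ × ℕ => p.1)
      (h := fun (_ : ℕ × ℕ) (q : ℕ × ℕ) => call q.1 q.2) Primrec.snd Primrec.fst ?_
    have h2 : Primrec (fun x : (ℕ × ℕ) × (ℕ × ℕ) => pr x.2.1 x.2.2) :=
      primrec_pr.comp (Primrec.fst.comp Primrec.snd) (Primrec.snd.comp Primrec.snd)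
    have h3 : Primrec (fun x : (ℕ × ℕ) × (ℕ × ℕ) => pr 5 (pr x.2.1 x.2.2)) :=
      primrec_pr.comp (Primrec.const 5) h2
    exact h3
  refine h.of_eq ?_
  rintro ⟨c, n⟩
  induction n with
  | zero => rfl
  | succ n ih =>
    simp only at ih
    simp only [cclN, ih]

theorem tcl {F G : (ℕ → ℕ) → ℕ} (hF : DT DA F) (hG : DT DA G) :
    DT DA (fun w => cclN (cclS (F w) (G w)) (G w)) :=
  trec prim_cclN (trec prim_cclS hF hG) hG

/-! ## The axioms -/

/-- The axioms of `ACA_0` other than the comprehension axioms. -/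
def basic : List Fm :=
  [.neg (.eq (.add (.var 0) .one) .zero),
   .imp (.eq (.add (.var 0) .one) (.add (.var 1) .one)) (.eq (.var 0) (.var 1)),
   .eq (.add (.var 0) .zero) (.var 0),
   .eq (.add (.var 0) (.add (.var 1) .one)) (.add (.add (.var 0) (.var 1)) .one),
   .eq (.mul (.var 0) .zero) .zero,
   .eq (.mul (.var 0) (.add (.var 1) .one)) (.add (.mul (.var 0) (.var 1)) (.var 0)),
   .neg (.lt (.var 0) .zero),
   .iff (.lt (.var 0) (.add (.var 1) .one)) (.or (.lt (.var 0) (.var 1)) (.eq (.var 0) (.var 1))),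
   .imp (.and (.mem .zero 0)
      (.all 0 (.imp (.mem (.var 0) 0) (.mem (.add (.var 0) .one) 0)))) (.all 0 (.mem (.var 0) 0))]

/-- The closed comprehension axioms. -/
def CompAx : Set Fm := {ψ | ∃ n i : ℕ, i < n ∧ ∃ φ : Fm, φ.Arithmetical ∧ flt n φ ∧
  ψ = cl n (compF φ i n)}

/-- The closed axioms of choice. -/
def ChoiceAx : Set Fm := {ψ | ∃ n i j l : ℕ, i < n ∧ j < n ∧ l < n ∧ ∃ φ : Fm, φ.Arithmetical ∧
  flt n φ ∧ ψ = cl n (choiceF (.exS l φ) i j n n)}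

/-- The theory: the closed axioms of `Sigma^1_1`-`AC_0` and two further true sentences. -/
def TT (𝒜 : Arithmetization) : Set Fm :=
  {ψ | (∃ φ ∈ basic, ψ = cl 2 φ) ∨ ψ = rho0 𝒜 ∨ ψ = rho1 𝒜 ∨ ψ ∈ CompAx ∨ ψ ∈ ChoiceAx}

theorem basic_flt : ∀ φ ∈ basic, flt 2 φ := by
  intro φ hφ
  simp only [basic, List.mem_cons, List.not_mem_nil, or_false] at hφ
  rcases hφ with rfl | rfl | rfl | rfl | rfl | rfl | rfl | rfl | rfl <;>
    simp [flt, tlt, Fm.imp, Fm.iff, Fm.or]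

theorem basic_aca : ∀ φ ∈ basic, ACA0 φ := by
  intro φ hφ
  simp only [basic, List.mem_cons, List.not_mem_nil, or_false] at hφ
  rcases hφ with rfl | rfl | rfl | rfl | rfl | rfl | rfl | rfl | rfl
  · exact .succ_ne_zero
  · exact .succ_inj
  · exact .add_zero
  · exact .add_succ
  · exact .mul_zero
  · exact .mul_succ
  · exact .not_lt_zero
  · exact .lt_succ
  · exact .induction

theorem TT_sentence (𝒜 : Arithmetization) : ∀ ψ ∈ TT 𝒜, ψ.IsSentence := by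
  rintro ψ (⟨φ, hφ, rfl⟩ | rfl | rfl | ⟨n, i, hi, φ, _, hφ, rfl⟩ |
    ⟨n, i, j, l, hi, hj, hl, φ, _, hφ, rfl⟩)
  · exact cl_sentence (flt_fvN φ (basic_flt φ hφ)) (flt_fvS φ (basic_flt φ hφ))
  · exact rho0_sentence 𝒜
  · exact rho1_sentence 𝒜
  · refine cl_sentence (fun x hx => ?_) (fun x hx => ?_)
    · simp only [compF, Fm.fvN, Fm.exS, Fm.iff, Fm.imp, Tm.fv, Set.mem_union, Set.mem_sdiff,
        Set.mem_singleton_iff] at hx
      have := flt_fvN φ hφ x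
      tauto
    · simp only [compF, Fm.fvS, Fm.exS, Fm.iff, Fm.imp, Set.mem_union, Set.mem_sdiff,
        Set.mem_singleton_iff] at hx
      have := flt_fvS φ hφ x
      tauto
  · refine cl_sentence (fun x hx => ?_) (fun x hx => ?_)
    · simp only [choiceF, Fm.fvN, Fm.exS, Fm.iff, Fm.imp, Tm.fv, Tm.fv_prT, Set.mem_union,
        Set.mem_sdiff, Set.mem_singleton_iff] at hx
      have := flt_fvN φ hφ x
      tauto
    · simp only [choiceF, Fm.fvS, Fm.exS, Fm.iff, Fm.imp, Set.mem_union, Set.mem_sdiff,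
        Set.mem_singleton_iff] at hx
      have := flt_fvS φ hφ x
      tauto

theorem TT_true (𝒜 : Arithmetization)
    (hfin : ∀ p : ℕ, {a : ℕ | SatN a p 0 𝒜.axIn}.Finite) : ∀ ψ ∈ TT 𝒜, std.Holds ψ := by
  rintro ψ (⟨φ, hφ, rfl⟩ | rfl | rfl | ⟨n, i, hi, φ, hφ', hφ, rfl⟩ |
    ⟨n, i, j, l, hi, hj, hl, φ, _, hφ, rfl⟩)
  · rw [holds_cl]
    exact aca_std _ (basic_aca φ hφ)
  · exact rho0_true 𝒜
  · exact rho1_true 𝒜 hfin
  · rw [holds_cl]
    exact aca_std _ (ACA0.comprehension φ i n hφ' fun h => by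
      have := flt_fvS φ hφ n h
      omega)
  · rw [holds_cl]
    intro v V hV
    rw [Sat_choiceF std (fun h => by
      simp only [Fm.exS, Fm.fvS, Set.mem_sdiff] at h
      have := flt_fvS φ hφ n h.1
      omega) (by omega) (by omega)]
    intro h
    choose A hA hA' using h
    refine ⟨{y | ∃ a b : ℕ, y = pr a b ∧ b ∈ A a}, trivial, fun a => ⟨A a, trivial, fun b => ?_,
      hA' a⟩⟩
    constructor
    · intro hb
      exact ⟨a, b, rfl, hb⟩
    · rintro ⟨a', b', h1, h2⟩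
      have h3 := pr_inj (show pr a b = pr a' b' from h1)
      rw [h3.1, h3.2]
      exact h2

theorem TT_ext (𝒜 : Arithmetization) : ∀ φ, SigmaAC0 φ → Proves (TT 𝒜) φ := by
  intro φ hφ M hM
  have hb : ∀ φ ∈ basic, M.Holds φ := fun φ h => (holds_cl M 2 φ).1 (hM _ (Or.inl ⟨φ, h, rfl⟩))
  cases hφ with
  | aca φ h =>
    cases h with
    | succ_ne_zero => exact hb _ (by simp [basic])
    | succ_inj => exact hb _ (by simp [basic])
    | add_zero => exact hb _ (by simp [basic])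
    | add_succ => exact hb _ (by simp [basic])
    | mul_zero => exact hb _ (by simp [basic])
    | mul_succ => exact hb _ (by simp [basic])
    | not_lt_zero => exact hb _ (by simp [basic])
    | lt_succ => exact hb _ (by simp [basic])
    | induction => exact hb _ (by simp [basic])
    | comprehension φ i j hφ hj =>
      obtain ⟨m, hm⟩ := exists_flt φ
      have h1 : flt (max m (i + 1)) φ := flt_mono (le_max_left _ _) φ hm
      have h2 : i < max m (i + 1) := lt_of_lt_of_le (Nat.lt_succ_self i) (le_max_right _ _)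
      have h3 := (holds_cl M _ _).1 (hM _ (Or.inr (Or.inr (Or.inr (Or.inl
        ⟨_, i, h2, φ, hφ, h1, rfl⟩)))))
      intro v V hV
      have h4 := (Sat_compF M (fun h => by
        have := flt_fvS φ h1 _ h
        omega) v V).1 (h3 v V hV)
      exact (Sat_compF M hj v V).2 h4
  | choice η i j k m hη hk hkj hm =>
    have key : ∃ (l : ℕ) (θ : Fm), θ.Arithmetical ∧
        (∀ (v : ℕ → M.Num) (V : ℕ → Set M.Num), Sat M v V (.exS l θ) ↔ Sat M v V η) := by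
      rcases hη with ⟨l, θ, rfl, hθ⟩ | hη
      · exact ⟨l, θ, hθ, fun _ _ => Iff.rfl⟩
      · obtain ⟨l, hl⟩ := exists_flt η
        refine ⟨l, η, hη, fun v V => ?_⟩
        rw [Sat_exS]
        have h1 : ∀ A : Set M.Num, Sat M v (update V l A) η ↔ Sat M v V η := by
          intro A
          refine Sat_congr M η _ _ _ _ (fun _ _ => rfl) (fun x hx => ?_)
          rw [update_of_ne]
          rintro rfl
          have := flt_fvS η hl _ hx
          omega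
        simp only [h1]
        exact ⟨fun ⟨_, _, h⟩ => h, fun h => ⟨_, M.sets_nonempty.some_mem, h⟩⟩
    obtain ⟨l, θ, hθ, hl⟩ := key
    obtain ⟨q, hq⟩ := exists_flt θ
    set N := max (max q (i + 1)) (max (j + 1) (l + 1)) with hN
    have h1 : flt N θ := flt_mono (by omega) θ hq
    have h3 := (holds_cl M _ _).1 (hM _ (Or.inr (Or.inr (Or.inr (Or.inr
        ⟨N, i, j, l, by omega, by omega, by omega, θ, hθ, h1, rfl⟩)))))
    intro v V hV
    have h4 := (Sat_choiceF M (fun h => by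
      simp only [Fm.exS, Fm.fvS, Set.mem_sdiff] at h
      have := flt_fvS θ h1 N h.1
      omega) (by omega) (by omega) v V).1 (h3 v V hV)
    rw [Sat_choiceF M hk hkj hm]
    simp only [hl] at h4
    exact h4

theorem mem_codes (𝒜 : Arithmetization) (c : ℕ) : (∃ ψ ∈ TT 𝒜, ψ.code = c) ↔
    ((∃ ψ ∈ basic, c = (cl 2 ψ).code) ∨ c = (rho0 𝒜).code ∨ c = (rho1 𝒜).code ∨
      (∃ n i : ℕ, i < n ∧ ∃ x, (∃ φ : Fm, φ.Arithmetical ∧ flt n φ ∧ x = φ.code) ∧
        c = cclN (cclS (ccomp x i n) n) n) ∨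
      (∃ n i j l : ℕ, i < n ∧ j < n ∧ l < n ∧ ∃ x,
        (∃ φ : Fm, φ.Arithmetical ∧ flt n φ ∧ x = φ.code) ∧
        c = cclN (cclS (cchoice (cexS l x) i j n n) n) n)) := by
  constructor
  · rintro ⟨ψ, (⟨φ, hφ, rfl⟩ | rfl | rfl | ⟨n, i, hi, φ, hφ', hφ, rfl⟩ |
      ⟨n, i, j, l, hi, hj, hl, φ, hφ', hφ, rfl⟩), rfl⟩
    · exact Or.inl ⟨φ, hφ, rfl⟩
    · exact Or.inr (Or.inl rfl)
    · exact Or.inr (Or.inr (Or.inl rfl))
    · refine Or.inr (Or.inr (Or.inr (Or.inl ⟨n, i, hi, φ.code, ⟨φ, hφ', hφ, rfl⟩, ?_⟩)))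
      rw [code_cl, code_compF]
    · refine Or.inr (Or.inr (Or.inr (Or.inr ⟨n, i, j, l, hi, hj, hl, φ.code,
        ⟨φ, hφ', hφ, rfl⟩, ?_⟩)))
      rw [code_cl, code_choiceF]
      rfl
  · rintro (⟨φ, hφ, rfl⟩ | rfl | rfl | ⟨n, i, hi, _, ⟨φ, hφ', hφ, rfl⟩, rfl⟩ |
      ⟨n, i, j, l, hi, hj, hl, _, ⟨φ, hφ', hφ, rfl⟩, rfl⟩)
    · exact ⟨_, Or.inl ⟨φ, hφ, rfl⟩, rfl⟩
    · exact ⟨_, Or.inr (Or.inl rfl), rfl⟩
    · exact ⟨_, Or.inr (Or.inr (Or.inl rfl)), rfl⟩
    · refine ⟨_, Or.inr (Or.inr (Or.inr (Or.inl ⟨n, i, hi, φ, hφ', hφ, rfl⟩))), ?_⟩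
      rw [code_cl, code_compF]
    · refine ⟨_, Or.inr (Or.inr (Or.inr (Or.inr ⟨n, i, j, l, hi, hj, hl, φ, hφ', hφ, rfl⟩))), ?_⟩
      rw [code_cl, code_choiceF]
      rfl

theorem list_DA (L : List Fm) (f : Fm → ℕ) : DA (fun w => ∃ ψ ∈ L, w 0 = f ψ) := by
  have h := dcA
  induction L with
  | nil => exact h.iff (fun w => by simp) h.bot
  | cons a L ih =>
    exact h.iff (fun w => by simp) (h.or (h.eq (h.tvar 0) (tconst (f a))) ih)

theorem codes_DA (𝒜 : Arithmetization) : DA (fun w => ∃ ψ ∈ TT 𝒜, ψ.code = w 0) := by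
  have h := dcA
  refine h.iff (fun w => (mem_codes 𝒜 (w 0)).symm) ?_
  refine h.or (list_DA basic fun ψ => (cl 2 ψ).code) ?_
  refine h.or (h.eq (h.tvar 0) (tconst _)) ?_
  refine h.or (h.eq (h.tvar 0) (tconst _)) ?_
  refine h.or ?_ ?_
  · refine h.ex' (S := fun n w => ∃ i : ℕ, i < n ∧ ∃ x,
        (∃ φ : Fm, φ.Arithmetical ∧ flt n φ ∧ x = φ.code) ∧
        w 0 = cclN (cclS (ccomp x i n) n) n) ?_
    refine h.ex' (S := fun i w => i < w 0 ∧ ∃ x,
        (∃ φ : Fm, φ.Arithmetical ∧ flt (w 0) φ ∧ x = φ.code) ∧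
        w 1 = cclN (cclS (ccomp x i (w 0)) (w 0)) (w 0)) ?_
    refine h.and (h.lt (h.tvar 0) (h.tvar 1)) ?_
    refine h.ex' (S := fun x w =>
        (∃ φ : Fm, φ.Arithmetical ∧ flt (w 1) φ ∧ x = φ.code) ∧
        w 2 = cclN (cclS (ccomp x (w 0) (w 1)) (w 1)) (w 1)) ?_
    -- 0 = x, 1 = i, 2 = n, 3 = c
    refine h.and (h.app2 (R := fun n x => ∃ φ : Fm, φ.Arithmetical ∧ flt n φ ∧ x = φ.code)
      arith_DA (h.tvar 2) (h.tvar 0)) ?_
    exact h.eq (h.tvar 3) (tcl (tcomp (h.tvar 0) (h.tvar 1) (h.tvar 2)) (h.tvar 2))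
  · refine h.ex' (S := fun n w => ∃ i j l : ℕ, i < n ∧ j < n ∧ l < n ∧ ∃ x,
        (∃ φ : Fm, φ.Arithmetical ∧ flt n φ ∧ x = φ.code) ∧
        w 0 = cclN (cclS (cchoice (cexS l x) i j n n) n) n) ?_
    refine h.ex' (S := fun i w => ∃ j l : ℕ, i < w 0 ∧ j < w 0 ∧ l < w 0 ∧ ∃ x,
        (∃ φ : Fm, φ.Arithmetical ∧ flt (w 0) φ ∧ x = φ.code) ∧
        w 1 = cclN (cclS (cchoice (cexS l x) i j (w 0) (w 0)) (w 0)) (w 0)) ?_
    refine h.ex' (S := fun j w => ∃ l : ℕ, w 0 < w 1 ∧ j < w 1 ∧ l < w 1 ∧ ∃ x,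
        (∃ φ : Fm, φ.Arithmetical ∧ flt (w 1) φ ∧ x = φ.code) ∧
        w 2 = cclN (cclS (cchoice (cexS l x) (w 0) j (w 1) (w 1)) (w 1)) (w 1)) ?_
    refine h.ex' (S := fun l w => w 1 < w 2 ∧ w 0 < w 2 ∧ l < w 2 ∧ ∃ x,
        (∃ φ : Fm, φ.Arithmetical ∧ flt (w 2) φ ∧ x = φ.code) ∧
        w 3 = cclN (cclS (cchoice (cexS l x) (w 1) (w 0) (w 2) (w 2)) (w 2)) (w 2)) ?_
    -- 0 = l, 1 = j, 2 = i, 3 = n, 4 = c
    refine h.and (h.lt (h.tvar 2) (h.tvar 3)) (h.and (h.lt (h.tvar 1) (h.tvar 3))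
      (h.and (h.lt (h.tvar 0) (h.tvar 3)) ?_))
    refine h.ex' (S := fun x w =>
        (∃ φ : Fm, φ.Arithmetical ∧ flt (w 3) φ ∧ x = φ.code) ∧
        w 4 = cclN (cclS (cchoice (cexS (w 0) x) (w 2) (w 1) (w 3) (w 3)) (w 3)) (w 3)) ?_
    -- 0 = x, 1 = l, 2 = j, 3 = i, 4 = n, 5 = c
    refine h.and (h.app2 (R := fun n x => ∃ φ : Fm, φ.Arithmetical ∧ flt n φ ∧ x = φ.code)
      arith_DA (h.tvar 4) (h.tvar 0)) ?_
    exact h.eq (h.tvar 5) (tcl (tchoice (texS (h.tvar 1) (h.tvar 0)) (h.tvar 3) (h.tvar 2)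
      (h.tvar 4) (h.tvar 4)) (h.tvar 4))

/-- The final theorem. -/
theorem main (𝒜 : Arithmetization) (hfin : ∀ p : ℕ, {a : ℕ | SatN a p 0 𝒜.axIn}.Finite) :
    (∀ φ ∈ TT 𝒜, φ.IsSentence) ∧ (∀ φ, SigmaAC0 φ → Proves (TT 𝒜) φ) ∧
      (∀ φ ∈ TT 𝒜, std.Holds φ) ∧ Pi11Sound (TT 𝒜) ∧
      ∃ τ : Fm, Pi11Defines τ (TT 𝒜) ∧ Proves (TT 𝒜) (𝒜.reflection τ) := by
  obtain ⟨σ, h1, h2, h3⟩ := (codes_DA 𝒜).formula (R := fun c => ∃ ψ ∈ TT 𝒜, ψ.code = c)
  refine ⟨TT_sentence 𝒜, TT_ext 𝒜, TT_true 𝒜 hfin, fun φ _ h => h std (TT_true 𝒜 hfin), ?_⟩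
  exact feferman 𝒜 (TT 𝒜) (TT_sentence 𝒜) (TT_true 𝒜 hfin) (Or.inr (Or.inl rfl))
    (Or.inr (Or.inr (Or.inl rfl))) h1 h2 (fun n => h3 (asg (A := ℕ) n 0 0) (fun _ => ∅))

end Pool.Agent.U99.PS
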